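import Pool.Agent.H972.WG.PolyL

/-! Derivatives of the product of powers of quadratic functions. -/

set_option autoImplicit false
open MeasureTheory ProbabilityTheory Matrix
open scoped ENNReal

namespace Pool.Agent.H972.WG

section
variable {j : ℕ}

theorem quad_line (κ g : ℝ) (l : Fin j → ℝ) (M : Matrix (Fin j) (Fin j) ℝ) (hM : Mᵀ = M)
    (ξ : Fin j → ℝ) (y t : ℝ) (i : Fin j) :
    quad κ g l M (ξ + t • Pi.single i 1, y) = quad κ g l M (ξ, y) +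
      t * (2 * (l i + (M *ᵥ ξ) i)) + t ^ 2 * M i i := by
  have h1 : ξ ⬝ᵥ (M *ᵥ Pi.single i 1) = (M *ᵥ ξ) i := by
    rw [Matrix.dotProduct_mulVec, ← Matrix.mulVec_transpose, hM, dotProduct_single, mul_one]
  have h2 : (Pi.single i 1 : Fin j → ℝ) ⬝ᵥ (M *ᵥ ξ) = (M *ᵥ ξ) i := by
    rw [single_dotProduct, one_mul]
  have h3 : (Pi.single i 1 : Fin j → ℝ) ⬝ᵥ (M *ᵥ Pi.single i 1) = M i i := by
    rw [single_dotProduct, one_mul]
    simp
  have h4 : l ⬝ᵥ (Pi.single i 1 : Fin j → ℝ) = l i := by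
    rw [dotProduct_single, mul_one]
  unfold quad
  simp only [mulVec_add, mulVec_smul, dotProduct_add, add_dotProduct, dotProduct_smul,
    smul_dotProduct, h1, h2, h3, h4, smul_eq_mul]
  ring

theorem ss_line (ξ : Fin j → ℝ) (y t : ℝ) (i : Fin j) :
    ss (ξ + t • Pi.single i 1, y) = ss (ξ, y) + t * (2 * ξ i) + t ^ 2 := by
  unfold ss
  simp only [dotProduct_add, add_dotProduct, dotProduct_smul, smul_dotProduct, smul_eq_mul,
    dotProduct_single, single_dotProduct, Pi.single_eq_same, mul_one, one_mul, Pi.add_apply,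
    Pi.smul_apply]
  ring

theorem hasDerivAt_qline (a b c : ℝ) : HasDerivAt (fun t : ℝ => a + t * b + t ^ 2 * c) b 0 := by
  have h1 : HasDerivAt (fun t : ℝ => a + t * b) b 0 := by
    simpa using ((hasDerivAt_id (0:ℝ)).mul_const b).const_add a
  have h2 : HasDerivAt (fun t : ℝ => t ^ 2 * c) 0 0 := by
    simpa using ((hasDerivAt_id (0:ℝ)).pow 2).mul_const c
  simpa using h1.fun_add h2

theorem hasDerivAt_quad_x (κ g : ℝ) (l : Fin j → ℝ) (M : Matrix (Fin j) (Fin j) ℝ) (hM : Mᵀ = M)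
    (ξ : Fin j → ℝ) (y : ℝ) (i : Fin j) :
    HasDerivAt (fun t : ℝ => quad κ g l M (ξ + t • Pi.single i 1, y))
      (2 * (l i + (M *ᵥ ξ) i)) 0 := by
  simp only [quad_line κ g l M hM ξ y _ i]
  exact hasDerivAt_qline _ _ _

theorem hasDerivAt_ss_x (ξ : Fin j → ℝ) (y : ℝ) (i : Fin j) :
    HasDerivAt (fun t : ℝ => ss (ξ + t • Pi.single i 1, y)) (2 * ξ i) 0 := by
  simp only [ss_line ξ y _ i]
  simpa using hasDerivAt_qline (ss (ξ, y)) (2 * ξ i) 1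

theorem hasDerivAt_qx (l : Fin j → ℝ) (M : Matrix (Fin j) (Fin j) ℝ)
    (ξ : Fin j → ℝ) (i : Fin j) :
    HasDerivAt (fun t : ℝ => 2 * (l i + (M *ᵥ (ξ + t • Pi.single i 1)) i)) (2 * M i i) 0 := by
  have h : (fun t : ℝ => 2 * (l i + (M *ᵥ (ξ + t • Pi.single i 1)) i)) =
      fun t : ℝ => 2 * (l i + (M *ᵥ ξ) i) + t * (2 * M i i) + t ^ 2 * 0 := by
    funext t
    simp only [mulVec_add, mulVec_smul, Pi.add_apply, Pi.smul_apply, smul_eq_mul]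
    simp
    ring
  rw [h]
  exact hasDerivAt_qline _ _ _

theorem hasDerivAt_coord (ξ : Fin j → ℝ) (i : Fin j) :
    HasDerivAt (fun t : ℝ => (ξ + t • Pi.single i 1 : Fin j → ℝ) i) 1 0 := by
  have h : (fun t : ℝ => (ξ + t • Pi.single i 1 : Fin j → ℝ) i) =
      fun t : ℝ => ξ i + t * 1 + t ^ 2 * 0 := by
    funext t
    simp
  rw [h]
  exact hasDerivAt_qline _ _ _

theorem hasDerivAt_quad_y (κ g : ℝ) (l : Fin j → ℝ) (M : Matrix (Fin j) (Fin j) ℝ)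
    (ξ : Fin j → ℝ) (y : ℝ) :
    HasDerivAt (fun t : ℝ => quad κ g l M (ξ, t)) g y := by
  unfold quad
  simpa using ((hasDerivAt_id y).const_mul g).const_add (κ + 2 * (l ⬝ᵥ ξ) + ξ ⬝ᵥ (M *ᵥ ξ))

theorem hasDerivAt_ss_y (ξ : Fin j → ℝ) (y : ℝ) :
    HasDerivAt (fun t : ℝ => ss (ξ, t)) 1 y := by
  unfold ss
  simpa using (hasDerivAt_id y).const_add (ξ ⬝ᵥ ξ)

theorem quad_y (κ g : ℝ) (l : Fin j → ℝ) (M : Matrix (Fin j) (Fin j) ℝ) (ξ : Fin j → ℝ) (y : ℝ) :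
    quad κ g l M (ξ, y) = quad κ g l M (ξ, 0) + g * y := by
  unfold quad
  ring

end

section
variable {j : ℕ} {K : Type} [Fintype K] (κ g ν : K → ℝ) (l : K → Fin j → ℝ)
  (M : K → Matrix (Fin j) (Fin j) ℝ)

/-- the quadratic functions -/
def QQ (k : K) (ω : (Fin j → ℝ) × ℝ) : ℝ := quad (κ k) (g k) (l k) (M k) ω

/-- the product of powers, through logarithms -/
noncomputable def UU (ω : (Fin j → ℝ) × ℝ) : ℝ :=
  Real.exp (∑ k, ν k * Real.log (QQ κ g l M k ω))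

/-- partial derivative of `QQ` in direction `i` -/
def qx (k : K) (i : Fin j) (ω : (Fin j → ℝ) × ℝ) : ℝ := 2 * (l k i + (M k *ᵥ ω.1) i)

/-- logarithmic derivative in direction `i` -/
noncomputable def rx (i : Fin j) (ω : (Fin j → ℝ) × ℝ) : ℝ :=
  ∑ k, ν k * (qx l M k i ω / QQ κ g l M k ω)

/-- derivative of `rx` in direction `i` -/
noncomputable def rxx (i : Fin j) (ω : (Fin j → ℝ) × ℝ) : ℝ :=
  ∑ k, ν k * (2 * M k i i / QQ κ g l M k ω - (qx l M k i ω / QQ κ g l M k ω) ^ 2)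

/-- logarithmic derivative in direction `y` -/
noncomputable def ry (ω : (Fin j → ℝ) × ℝ) : ℝ := ∑ k, ν k * (g k / QQ κ g l M k ω)

/-- derivative of `ry` in direction `y` -/
noncomputable def ryy (ω : (Fin j → ℝ) × ℝ) : ℝ := ∑ k, ν k * (-(g k / QQ κ g l M k ω) ^ 2)

variable {κ g ν l M} {ε : K → ℝ}

theorem QQ_lower (hg : ∀ k, 0 ≤ g k)
    (hlow : ∀ k (ξ : Fin j → ℝ), ε k ≤ quad (κ k) (g k) (l k) (M k) (ξ, 0))
    (k : K) {ω : (Fin j → ℝ) × ℝ} (hω : 0 < ω.2) : ε k ≤ QQ κ g l M k ω := by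
  unfold QQ
  have h := quad_y (κ k) (g k) (l k) (M k) ω.1 ω.2
  have h1 := hlow k ω.1
  have h2 := mul_nonneg (hg k) hω.le
  have : (ω.1, ω.2) = ω := rfl
  rw [this] at h
  rw [h]
  linarith

theorem QQ_pos (hg : ∀ k, 0 ≤ g k) (hε : ∀ k, 0 < ε k)
    (hlow : ∀ k (ξ : Fin j → ℝ), ε k ≤ quad (κ k) (g k) (l k) (M k) (ξ, 0))
    (k : K) {ω : (Fin j → ℝ) × ℝ} (hω : 0 < ω.2) : 0 < QQ κ g l M k ω :=
  (hε k).trans_le (QQ_lower hg hlow k hω)

theorem UU_eq (hg : ∀ k, 0 ≤ g k) (hε : ∀ k, 0 < ε k)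
    (hlow : ∀ k (ξ : Fin j → ℝ), ε k ≤ quad (κ k) (g k) (l k) (M k) (ξ, 0))
    {ω : (Fin j → ℝ) × ℝ} (hω : 0 < ω.2) :
    ∏ k, quad (κ k) (g k) (l k) (M k) ω ^ ν k = UU κ g ν l M ω := by
  unfold UU
  rw [Real.exp_sum]
  refine Finset.prod_congr rfl fun k _ => ?_
  have := QQ_pos (M := M) hg hε hlow k hω
  unfold QQ at this ⊢
  rw [Real.rpow_def_of_pos this, mul_comm]

theorem hasDerivAt_UU_x (hg : ∀ k, 0 ≤ g k) (hε : ∀ k, 0 < ε k) (hM : ∀ k, (M k)ᵀ = M k)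
    (hlow : ∀ k (ξ : Fin j → ℝ), ε k ≤ quad (κ k) (g k) (l k) (M k) (ξ, 0))
    (i : Fin j) (ξ : Fin j → ℝ) (y : ℝ) (hy : 0 < y) :
    HasDerivAt (fun t : ℝ => UU κ g ν l M (ξ + t • Pi.single i 1, y))
      (UU κ g ν l M (ξ, y) * rx κ g ν l M i (ξ, y)) 0 := by
  unfold UU
  have h0 : ∀ k, HasDerivAt (fun t : ℝ => QQ κ g l M k (ξ + t • Pi.single i 1, y))
      (qx l M k i (ξ, y)) 0 := fun k => hasDerivAt_quad_x _ _ _ _ (hM k) ξ y i
  have hp : ∀ k, QQ κ g l M k (ξ + (0:ℝ) • Pi.single i 1, y) ≠ 0 := fun k =>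
    (QQ_pos hg hε hlow k (ω := (_, y)) hy).ne'
  have h1 : ∀ k ∈ (Finset.univ : Finset K), HasDerivAt
      (fun t : ℝ => ν k * Real.log (QQ κ g l M k (ξ + t • Pi.single i 1, y)))
      (ν k * (qx l M k i (ξ, y) / QQ κ g l M k (ξ, y))) 0 := by
    intro k _
    have := ((h0 k).log (hp k)).const_mul (ν k)
    simpa using this
  have h2 := (HasDerivAt.fun_sum h1).exp
  simp only [zero_smul, add_zero] at h2
  exact h2

theorem hasDerivAt_rx_x (hg : ∀ k, 0 ≤ g k) (hε : ∀ k, 0 < ε k) (hM : ∀ k, (M k)ᵀ = M k)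
    (hlow : ∀ k (ξ : Fin j → ℝ), ε k ≤ quad (κ k) (g k) (l k) (M k) (ξ, 0))
    (i : Fin j) (ξ : Fin j → ℝ) (y : ℝ) (hy : 0 < y) :
    HasDerivAt (fun t : ℝ => rx κ g ν l M i (ξ + t • Pi.single i 1, y))
      (rxx κ g ν l M i (ξ, y)) 0 := by
  unfold rx rxx
  refine HasDerivAt.fun_sum fun k _ => ?_
  have h0 : HasDerivAt (fun t : ℝ => QQ κ g l M k (ξ + t • Pi.single i 1, y))
      (qx l M k i (ξ, y)) 0 := hasDerivAt_quad_x _ _ _ _ (hM k) ξ y i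
  have h1 : HasDerivAt (fun t : ℝ => qx l M k i (ξ + t • Pi.single i 1, y)) (2 * M k i i) 0 :=
    hasDerivAt_qx (l k) (M k) ξ i
  have hp : QQ κ g l M k (ξ + (0:ℝ) • Pi.single i 1, y) ≠ 0 :=
    (QQ_pos hg hε hlow k (ω := (_, y)) hy).ne'
  have h2 := (h1.fun_div h0 hp).const_mul (ν k)
  simp only [zero_smul, add_zero] at h2 hp
  refine h2.congr_deriv ?_
  field_simp

theorem hasDerivAt_UU_y (hg : ∀ k, 0 ≤ g k) (hε : ∀ k, 0 < ε k)
    (hlow : ∀ k (ξ : Fin j → ℝ), ε k ≤ quad (κ k) (g k) (l k) (M k) (ξ, 0))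
    (ξ : Fin j → ℝ) (y : ℝ) (hy : 0 < y) :
    HasDerivAt (fun t : ℝ => UU κ g ν l M (ξ, t))
      (UU κ g ν l M (ξ, y) * ry κ g ν l M (ξ, y)) y := by
  unfold UU
  have hp : ∀ k, QQ κ g l M k (ξ, y) ≠ 0 := fun k =>
    (QQ_pos hg hε hlow k (ω := (_, y)) hy).ne'
  have h1 : ∀ k ∈ (Finset.univ : Finset K), HasDerivAt
      (fun t : ℝ => ν k * Real.log (QQ κ g l M k (ξ, t)))
      (ν k * (g k / QQ κ g l M k (ξ, y))) y := by
    intro k _
    have h0 : HasDerivAt (fun t : ℝ => QQ κ g l M k (ξ, t)) (g k) y :=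
      hasDerivAt_quad_y _ _ _ _ ξ y
    exact (h0.log (hp k)).const_mul (ν k)
  exact (HasDerivAt.fun_sum h1).exp

theorem hasDerivAt_ry_y (hg : ∀ k, 0 ≤ g k) (hε : ∀ k, 0 < ε k)
    (hlow : ∀ k (ξ : Fin j → ℝ), ε k ≤ quad (κ k) (g k) (l k) (M k) (ξ, 0))
    (ξ : Fin j → ℝ) (y : ℝ) (hy : 0 < y) :
    HasDerivAt (fun t : ℝ => ry κ g ν l M (ξ, t)) (ryy κ g ν l M (ξ, y)) y := by
  unfold ry ryy
  refine HasDerivAt.fun_sum fun k _ => ?_
  have hp : QQ κ g l M k (ξ, y) ≠ 0 := (QQ_pos hg hε hlow k (ω := (_, y)) hy).ne'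
  have h0 : HasDerivAt (fun t : ℝ => QQ κ g l M k (ξ, t)) (g k) y :=
    hasDerivAt_quad_y _ _ _ _ ξ y
  have h2 := ((hasDerivAt_const y (g k)).fun_div h0 hp).const_mul (ν k)
  refine h2.congr_deriv ?_
  field_simp
  ring

/-- the pointwise inequality `L U ≥ 0` -/
theorem L_nonneg (δ : ℝ) (hg : ∀ k, 0 ≤ g k) (hε : ∀ k, 0 < ε k) (hν : ∀ k, 0 ≤ ν k)
    (hlow : ∀ k (ξ : Fin j → ℝ), ε k ≤ quad (κ k) (g k) (l k) (M k) (ξ, 0))
    (hgr : ∀ k (ξ : Fin j → ℝ), (l k + M k *ᵥ ξ) ⬝ᵥ (l k + M k *ᵥ ξ) ≤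
      g k * quad (κ k) (g k) (l k) (M k) (ξ, 0))
    (htr : ∀ k, 2 * g k ≤ (M k).trace + δ * g k)
    {ω : (Fin j → ℝ) × ℝ} (hω : 0 < ω.2) :
    0 ≤ (∑ i, (rx κ g ν l M i ω ^ 2 + rxx κ g ν l M i ω)) +
      4 * ω.2 * (ry κ g ν l M ω ^ 2 + ryy κ g ν l M ω) + 2 * δ * ry κ g ν l M ω := by
  have key : 0 ≤ (∑ i, rxx κ g ν l M i ω) + 4 * ω.2 * ryy κ g ν l M ω +
      2 * δ * ry κ g ν l M ω := by
    unfold rxx ryy ry
    rw [Finset.sum_comm, Finset.mul_sum, Finset.mul_sum, ← Finset.sum_add_distrib,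
      ← Finset.sum_add_distrib]
    refine Finset.sum_nonneg fun k _ => ?_
    have hQ := QQ_pos (M := M) hg hε hlow k hω
    set q := QQ κ g l M k ω with hq
    rw [← Finset.mul_sum]
    have e1 : ∑ i, (2 * M k i i / q - (qx l M k i ω / q) ^ 2) =
        (2 * (M k).trace * q - ∑ i, qx l M k i ω ^ 2) / q ^ 2 := by
      rw [Finset.sum_sub_distrib, sub_div, Matrix.trace, Finset.sum_div]
      congr 1
      · rw [← Finset.sum_div, ← Finset.mul_sum]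
        simp only [Matrix.diag_apply]
        field_simp
      · exact Finset.sum_congr rfl fun i _ => by rw [div_pow]
    have e2 : ∑ i, qx l M k i ω ^ 2 = 4 * ((l k + M k *ᵥ ω.1) ⬝ᵥ (l k + M k *ᵥ ω.1)) := by
      simp only [dotProduct, Finset.mul_sum, qx, Pi.add_apply]
      exact Finset.sum_congr rfl fun i _ => by ring
    have e3 := hgr k ω.1
    have e4 : q = quad (κ k) (g k) (l k) (M k) (ω.1, 0) + g k * ω.2 :=
      quad_y (κ k) (g k) (l k) (M k) ω.1 ω.2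
    have e5 := htr k
    have hν' := hν k
    have hgk := hg k
    have e6 : ν k * ∑ i, (2 * M k i i / q - (qx l M k i ω / q) ^ 2) +
        4 * ω.2 * (ν k * -(g k / q) ^ 2) + 2 * δ * (ν k * (g k / q)) =
        ν k * ((2 * ((M k).trace + δ * g k) * q - ∑ i, qx l M k i ω ^ 2 - 4 * ω.2 * g k ^ 2) /
          q ^ 2) := by
      rw [e1]
      field_simp
      ring
    rw [e6]
    refine mul_nonneg hν' (div_nonneg ?_ (by positivity))
    have e7 : 2 * ((M k).trace + δ * g k) * q ≥ 4 * g k * q := by nlinarith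
    have e8 : ∑ i, qx l M k i ω ^ 2 + 4 * ω.2 * g k ^ 2 ≤ 4 * g k * q := by
      rw [e2, e4]
      nlinarith
    linarith
  have hsq : 0 ≤ (∑ i, rx κ g ν l M i ω ^ 2) + 4 * ω.2 * ry κ g ν l M ω ^ 2 := by
    have : 0 ≤ ω.2 := hω.le
    positivity
  rw [Finset.sum_add_distrib]
  linarith

end

end Pool.Agent.H972.WG
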