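import Pool.Agent.H972.WG.Stmts

/-!
# WG-CONG: the Jacobian of `X ↦ A X Aᵀ` on symmetric matrices (helper645)
-/

set_option autoImplicit false
open MeasureTheory ProbabilityTheory Matrix
open scoped ENNReal

namespace Pool.Agent.H972.WG

namespace CongAux

variable {n : ℕ}

lemma symMat_symm (x : Sym2 (Fin n) → ℝ) : (symMat x)ᵀ = symMat x := by
  ext i j
  simp [symMat, Sym2.eq_swap]

lemma symMat_coords (X : Matrix (Fin n) (Fin n) ℝ) (hX : Xᵀ = X) : symMat (coords X) = X := by
  ext i j
  have h : X j i = X i j := by
    conv_rhs => rw [← hX]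
    rfl
  simp only [symMat, coords, Matrix.of_apply, Sym2.lift_mk]
  rw [h]; ring

lemma coords_add (X Y : Matrix (Fin n) (Fin n) ℝ) : coords (X + Y) = coords X + coords Y := by
  funext s
  induction s using Sym2.ind with
  | _ i j => simp only [coords, Sym2.lift_mk, Matrix.add_apply, Pi.add_apply]; ring

lemma coords_smul (c : ℝ) (X : Matrix (Fin n) (Fin n) ℝ) : coords (c • X) = c • coords X := by
  funext s
  induction s using Sym2.ind with
  | _ i j => simp only [coords, Sym2.lift_mk, Matrix.smul_apply, Pi.smul_apply, smul_eq_mul]; ring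

lemma symMat_add (x y : Sym2 (Fin n) → ℝ) : symMat (x + y) = symMat x + symMat y := by
  ext i j; simp [symMat]

lemma symMat_smul (c : ℝ) (x : Sym2 (Fin n) → ℝ) : symMat (c • x) = c • symMat x := by
  ext i j; simp [symMat]

/-- The congruence map. -/
noncomputable def LA (A : Matrix (Fin n) (Fin n) ℝ) : (Sym2 (Fin n) → ℝ) →ₗ[ℝ] (Sym2 (Fin n) → ℝ) where
  toFun x := coords (A * symMat x * Aᵀ)
  map_add' x y := by
    rw [symMat_add, Matrix.mul_add, Matrix.add_mul, coords_add]
  map_smul' c x := by
    rw [symMat_smul, Matrix.mul_smul, Matrix.smul_mul, coords_smul, RingHom.id_apply]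

lemma LA_apply (A : Matrix (Fin n) (Fin n) ℝ) (x : Sym2 (Fin n) → ℝ) :
    LA A x = coords (A * symMat x * Aᵀ) := rfl

lemma LA_mul (A B : Matrix (Fin n) (Fin n) ℝ) : LA (A * B) = LA A ∘ₗ LA B := by
  ext1 x
  apply LinearMap.ext
  intro y
  simp only [LinearMap.coe_comp, Function.comp_apply, LA_apply]
  rw [symMat_coords (B * symMat _ * Bᵀ)]
  · rw [Matrix.transpose_mul]
    simp only [Matrix.mul_assoc]
  · rw [Matrix.transpose_mul, Matrix.transpose_mul, Matrix.transpose_transpose, symMat_symm,
      Matrix.mul_assoc]

lemma coords_symMat (x : Sym2 (Fin n) → ℝ) : coords (symMat x) = x := by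
  funext s
  induction s using Sym2.ind with
  | _ i j =>
    simp only [coords, symMat, Sym2.lift_mk, Matrix.of_apply]
    rw [Sym2.eq_swap (a := j)]; ring

lemma LA_one : LA (1 : Matrix (Fin n) (Fin n) ℝ) = LinearMap.id := by
  apply LinearMap.ext
  intro x
  simp [LA_apply, coords_symMat]

lemma det_LA_mul (A B : Matrix (Fin n) (Fin n) ℝ) :
    LinearMap.det (LA (A * B)) = LinearMap.det (LA A) * LinearMap.det (LA B) := by
  rw [LA_mul, LinearMap.det_comp]

lemma det_LA_ne_zero (A : Matrix (Fin n) (Fin n) ℝ) (hA : A.det ≠ 0) :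
    LinearMap.det (LA A) ≠ 0 := by
  have h : A * A⁻¹ = 1 := Matrix.mul_nonsing_inv A (isUnit_iff_ne_zero.mpr hA)
  have h2 := det_LA_mul A A⁻¹
  rw [h, LA_one, LinearMap.det_id] at h2
  intro h0
  rw [h0, zero_mul] at h2
  exact one_ne_zero h2

/-- The product of `D i * D j` over the unordered pairs. -/
lemma card_fibers (s : Sym2 (Fin n)) :
    (Finset.univ.filter fun p : Fin n × Fin n => s(p.1, p.2) = s).card +
      (Finset.univ.filter fun i : Fin n => s(i, i) = s).card = 2 := by
  induction s using Sym2.ind with
  | _ a b =>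
    by_cases hab : a = b
    · subst hab
      have h1 : (Finset.univ.filter fun p : Fin n × Fin n => s(p.1, p.2) = s(a, a)) = {(a, a)} := by
        ext p
        simp only [Finset.mem_filter, Finset.mem_univ, true_and, Finset.mem_singleton, Sym2.eq_iff,
          Prod.ext_iff]
        tauto
      have h2 : (Finset.univ.filter fun i : Fin n => s(i, i) = s(a, a)) = {a} := by
        ext p
        simp only [Finset.mem_filter, Finset.mem_univ, true_and, Finset.mem_singleton, Sym2.eq_iff]
        tauto
      rw [h1, h2]; simp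
    · have h1 : (Finset.univ.filter fun p : Fin n × Fin n => s(p.1, p.2) = s(a, b)) =
          {(a, b), (b, a)} := by
        ext p
        simp only [Finset.mem_filter, Finset.mem_univ, true_and, Finset.mem_singleton, Sym2.eq_iff,
          Prod.ext_iff, Finset.mem_insert]
      have h2 : (Finset.univ.filter fun i : Fin n => s(i, i) = s(a, b)) = ∅ := by
        ext p
        simp only [Finset.mem_filter, Finset.mem_univ, true_and, Sym2.eq_iff, Finset.notMem_empty,
          iff_false]
        rintro (⟨h, h'⟩ | ⟨h, h'⟩)
        · exact hab (h.symm.trans h')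
        · exact hab (h'.symm.trans h)
      rw [h1, h2, Finset.card_pair, Finset.card_empty]
      intro h
      exact hab (Prod.ext_iff.mp h).1

/-- `f s(i,j) = D i * D j`. -/
def fD (D : Fin n → ℝ) : Sym2 (Fin n) → ℝ := Sym2.lift ⟨fun i j => D i * D j, fun _ _ => mul_comm _ _⟩

lemma prod_fD_sq (D : Fin n → ℝ) : (∏ s, fD D s) ^ 2 = ((∏ i, D i) ^ (n + 1)) ^ 2 := by
  have h1 : (∏ s, fD D s) ^ 2 = (∏ p : Fin n × Fin n, fD D s(p.1, p.2)) * ∏ i, fD D s(i, i) := by
    rw [← Finset.prod_fiberwise Finset.univ (fun p : Fin n × Fin n => s(p.1, p.2))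
      (fun p => fD D s(p.1, p.2)),
      ← Finset.prod_fiberwise Finset.univ (fun i : Fin n => s(i, i)) (fun i => fD D s(i, i)),
      ← Finset.prod_mul_distrib, ← Finset.prod_pow]
    apply Finset.prod_congr rfl
    intro s _
    rw [← card_fibers s, pow_add]
    congr 1
    · rw [← Finset.prod_const]
      apply Finset.prod_congr rfl
      intro p hp
      rw [(Finset.mem_filter.mp hp).2]
    · rw [← Finset.prod_const]
      apply Finset.prod_congr rfl
      intro p hp
      rw [(Finset.mem_filter.mp hp).2]
  rw [h1, Fintype.prod_prod_type]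
  simp only [fD, Sym2.lift_mk]
  simp only [Finset.prod_mul_distrib, Finset.prod_const, Finset.card_univ, Fintype.card_fin]
  rw [Finset.prod_pow]
  ring

lemma det_LA_diagonal (D : Fin n → ℝ) : LinearMap.det (LA (diagonal D)) = ∏ s, fD D s := by
  rw [← LinearMap.det_toMatrix']
  have : LinearMap.toMatrix' (LA (diagonal D)) = diagonal (fD D) := by
    ext s t
    rw [LinearMap.toMatrix'_apply, LA_apply]
    induction s using Sym2.ind with
    | _ i j =>
      simp only [coords, Sym2.lift_mk, Matrix.diagonal_transpose, Matrix.diagonal_mul,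
        Matrix.mul_diagonal, symMat, Matrix.of_apply]
      rw [Sym2.eq_swap (a := j)]
      rw [Matrix.diagonal_apply]
      by_cases h : s(i, j) = t
      · subst h
        simp [fD]
        ring
      · rw [if_neg h]
        simp [h]
  rw [this, Matrix.det_diagonal]

lemma abs_det_LA_diagonal (D : Fin n → ℝ) :
    |LinearMap.det (LA (diagonal D))| = |(diagonal D).det| ^ (n + 1) := by
  rw [det_LA_diagonal, Matrix.det_diagonal, ← abs_pow]
  exact sq_eq_sq_iff_abs_eq_abs _ _ |>.mp (prod_fD_sq D)

lemma abs_det_LA_transvection (i j : Fin n) (hij : i ≠ j) (c : ℝ) :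
    |LinearMap.det (LA (transvection i j c))| = 1 := by
  set D : Fin n → ℝ := fun k => if k = i then 2 else 1 with hD
  have hDdet : (diagonal D).det ≠ 0 := by
    rw [Matrix.det_diagonal]
    apply Finset.prod_ne_zero_iff.mpr
    intro k _
    simp only [hD]
    split_ifs <;> norm_num
  have hcomm : diagonal D * transvection i j c = transvection i j (c + c) * diagonal D := by
    ext a b
    rw [Matrix.diagonal_mul, Matrix.mul_diagonal]
    simp only [transvection, Matrix.add_apply, Matrix.single_apply, Matrix.one_apply, hD]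
    by_cases ha : a = i
    · subst ha
      by_cases hb : b = a
      · subst hb
        have : ¬ (j = b) := fun h => hij h.symm
        simp [this]
      · by_cases hb' : j = b
        · subst hb'
          simp [hij, hb]
          ring
        · have : ¬ (a = b) := fun h => hb h.symm
          simp [this, hb', hb]
    · have ha' : ¬ (i = a) := fun h => ha h.symm
      by_cases hab : a = b
      · subst hab; simp [ha, ha']
      · simp [ha', hab]
  have h1 := congrArg (fun M => LinearMap.det (LA M)) hcomm
  simp only [det_LA_mul] at h1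
  have h2 : LinearMap.det (LA (transvection i j (c + c))) =
      LinearMap.det (LA (transvection i j c)) * LinearMap.det (LA (transvection i j c)) := by
    rw [← transvection_mul_transvection_same i j hij, det_LA_mul]
  rw [h2] at h1
  have h3 : LinearMap.det (LA (diagonal D)) ≠ 0 := det_LA_ne_zero _ hDdet
  have h4 : LinearMap.det (LA (transvection i j c)) ≠ 0 :=
    det_LA_ne_zero _ (by rw [det_transvection_of_ne i j hij]; exact one_ne_zero)
  have h5 : LinearMap.det (LA (transvection i j c)) = 1 := by
    have h6 : (LinearMap.det (LA (diagonal D)) * LinearMap.det (LA (transvection i j c))) * 1 =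
        (LinearMap.det (LA (diagonal D)) * LinearMap.det (LA (transvection i j c))) *
          LinearMap.det (LA (transvection i j c)) := by
      rw [mul_one]
      refine h1.trans ?_
      ring
    exact (mul_left_cancel₀ (mul_ne_zero h3 h4) h6).symm
  rw [h5, abs_one]

lemma abs_det_LA (A : Matrix (Fin n) (Fin n) ℝ) (hA : A.det ≠ 0) :
    |LinearMap.det (LA A)| = |A.det| ^ (n + 1) := by
  apply Matrix.diagonal_transvection_induction_of_det_ne_zero
    (fun A => |LinearMap.det (LA A)| = |A.det| ^ (n + 1)) A hA
  · intro D _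
    exact abs_det_LA_diagonal D
  · intro t
    rw [TransvectionStruct.det]
    rw [abs_one, one_pow]
    exact abs_det_LA_transvection t.i t.j t.hij t.c
  · intro A B _ _ hA hB
    rw [det_LA_mul, abs_mul, hA, hB, Matrix.det_mul, abs_mul, mul_pow]

end CongAux

theorem cong_holds : S_CONG := fun _ A hA =>
  ⟨CongAux.LA A, fun _ => rfl, CongAux.abs_det_LA A hA⟩

end Pool.Agent.H972.WG
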