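import Mathlib

/-!
# The Wishart law

The cone of positive definite matrices is described in the coordinates `x s(i,j)` (the entries on
and above the diagonal), the Wishart law is a measure on these coordinates with the usual density.
-/

set_option autoImplicit false
open MeasureTheory ProbabilityTheory Matrix
open scoped ENNReal

namespace Pool.Agent.H972.WG

/-- The symmetric matrix with entries `x s(i,j)`. -/
def symMat {ι : Type*} (x : Sym2 ι → ℝ) : Matrix ι ι ℝ := Matrix.of fun i j => x s(i, j)

/-- The cone of positive definite symmetric matrices, in the coordinates `x s(i,j)`. -/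
def cone (ι : Type*) [Fintype ι] : Set (Sym2 ι → ℝ) := {x | (symMat x).PosDef}

/-- The multivariate gamma function `Γ_p(β)`, `p = card ι`. -/
noncomputable def mvGamma (ι : Type*) [Fintype ι] [DecidableEq ι] (β : ℝ) : ℝ :=
  ∫ x in cone ι, (symMat x).det ^ (β - ((Fintype.card ι : ℝ) + 1) / 2) *
    Real.exp (-(symMat x).trace)

/-- The Wishart density `f_{α,S}` at the matrix `X`. -/
noncomputable def wishartDensity {ι : Type*} [Fintype ι] [DecidableEq ι] (α : ℝ)
    (S X : Matrix ι ι ℝ) : ℝ :=
  X.det ^ (α / 2 - ((Fintype.card ι : ℝ) + 1) / 2) *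
      Real.exp (-(((1 / 2 : ℝ) • S⁻¹) * X).trace) /
    (((2 : ℝ) • S).det ^ (α / 2) * mvGamma ι (α / 2))

/-- The Wishart law `W_p(α, S)`, as a law of the coordinates `x s(i,j)`. -/
noncomputable def wishart {ι : Type*} [Fintype ι] [DecidableEq ι] (α : ℝ) (S : Matrix ι ι ℝ) :
    Measure (Sym2 ι → ℝ) :=
  ((volume : Measure (Sym2 ι → ℝ)).restrict (cone ι)).withDensity
    fun x => ENNReal.ofReal (wishartDensity α S (symMat x))

end Pool.Agent.H972.WG
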