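import Pool.Agent.H972.WG.Ibx

set_option autoImplicit false
open MeasureTheory ProbabilityTheory Matrix Filter Topology
open scoped ENNReal

namespace Pool.Agent.H972.WG

namespace Iby

theorem dens_mul_y {j : ℕ} (δ c : ℝ) (ξ : Fin j → ℝ) {y : ℝ} (hy : 0 < y) :
    Int.dens j δ c (ξ, y) * y = Real.exp (-(c * (ξ ⬝ᵥ ξ + y))) * y ^ (δ / 2) := by
  unfold Int.dens
  simp only
  rw [mul_assoc, ← Real.rpow_add_one hy.ne']
  congr 2
  ring

theorem deriv_F {j : ℕ} (δ c : ℝ) (f f' : (Fin j → ℝ) × ℝ → ℝ) (ξ : Fin j → ℝ) {y : ℝ}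
    (hy : 0 < y) (hd : HasDerivAt (fun t : ℝ => f (ξ, t)) (f' (ξ, y)) y) :
    HasDerivAt (fun t : ℝ => Real.exp (-(c * (ξ ⬝ᵥ ξ + t))) * t ^ (δ / 2) * f (ξ, t))
      (Int.dens j δ c (ξ, y) * (y * f' (ξ, y) + (δ / 2) * f (ξ, y) - c * y * f (ξ, y))) y := by
  have h1 : HasDerivAt (fun t : ℝ => Real.exp (-(c * (ξ ⬝ᵥ ξ + t))))
      (Real.exp (-(c * (ξ ⬝ᵥ ξ + y))) * (-(c * 1))) y :=
    (((hasDerivAt_id' y).const_add (ξ ⬝ᵥ ξ)).const_mul c).fun_neg.exp
  have h2 : HasDerivAt (fun t : ℝ => t ^ (δ / 2)) (δ / 2 * y ^ (δ / 2 - 1)) y :=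
    Real.hasDerivAt_rpow_const (Or.inl hy.ne')
  refine ((h1.fun_mul h2).fun_mul hd).congr_deriv ?_
  have h3 : y ^ (δ / 2) = y ^ (δ / 2 - 1) * y := by
    rw [← Real.rpow_add_one hy.ne']; congr 1; ring
  unfold Int.dens
  simp only
  rw [h3]
  ring

theorem slice {j : ℕ} {δ c : ℝ} (hδ : 0 < δ) (hc : 0 < c) (f f' : (Fin j → ℝ) × ℝ → ℝ)
    (ξ : Fin j → ℝ) (hp : Poly f)
    (hd : ∀ y : ℝ, 0 < y → HasDerivAt (fun t : ℝ => f (ξ, t)) (f' (ξ, y)) y)
    (hi1 : Integrable (fun y : ℝ => Int.dens j δ c (ξ, y) * (y * f (ξ, y)))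
      ((volume : Measure ℝ).restrict (Set.Ioi 0)))
    (hi2 : Integrable (fun y : ℝ => Int.dens j δ c (ξ, y) *
      (y * f' (ξ, y) + (δ / 2) * f (ξ, y) - c * y * f (ξ, y)))
      ((volume : Measure ℝ).restrict (Set.Ioi 0))) :
    ∫ y in Set.Ioi (0 : ℝ), Int.dens j δ c (ξ, y) *
      (y * f' (ξ, y) + (δ / 2) * f (ξ, y) - c * y * f (ξ, y)) = 0 := by
  set F : ℝ → ℝ := fun t : ℝ => Real.exp (-(c * (ξ ⬝ᵥ ξ + t))) * t ^ (δ / 2) * f (ξ, t) with hF
  have hF0 : F 0 = 0 := by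
    simp only [hF]
    rw [Real.zero_rpow (by positivity)]
    ring
  have hder : ∀ y ∈ Set.Ioi (0 : ℝ), HasDerivAt F (Int.dens j δ c (ξ, y) *
      (y * f' (ξ, y) + (δ / 2) * f (ξ, y) - c * y * f (ξ, y))) y :=
    fun y hy => deriv_F δ c f f' ξ hy (hd y hy)
  have hFint : IntegrableOn F (Set.Ioi 0) := by
    refine hi1.congr ?_
    filter_upwards [ae_restrict_mem measurableSet_Ioi] with y hy
    rw [← mul_assoc, dens_mul_y δ c ξ hy]
  have hlim := tendsto_zero_of_hasDerivAt_of_integrableOn_Ioi hder hi2 hFint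
  have hξ : 0 ≤ ξ ⬝ᵥ ξ := by
    unfold dotProduct
    exact Finset.sum_nonneg fun i _ => mul_self_nonneg _
  have hcont : ContinuousWithinAt F (Set.Ici 0) 0 := by
    obtain ⟨C, N, hC0, hC⟩ := Ibx.poly_mono hp
    unfold ContinuousWithinAt
    rw [hF0]
    have hg : Tendsto (fun y : ℝ => y ^ (δ / 2) * (C * (1 + (ξ ⬝ᵥ ξ + y)) ^ N)) (𝓝[≥] 0) (𝓝 0) := by
      have h1 : ContinuousAt (fun y : ℝ => y ^ (δ / 2)) 0 :=
        Real.continuousAt_rpow_const _ _ (Or.inr (by positivity))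
      have h2 : ContinuousAt (fun y : ℝ => C * (1 + (ξ ⬝ᵥ ξ + y)) ^ N) 0 := by fun_prop
      have h3 := (h1.mul h2).tendsto
      simp only [Pi.mul_apply] at h3
      rw [Real.zero_rpow (by positivity), zero_mul] at h3
      exact h3.mono_left nhdsWithin_le_nhds
    refine squeeze_zero_norm' ?_ hg
    filter_upwards [self_mem_nhdsWithin] with y hy
    rcases eq_or_lt_of_le (show (0 : ℝ) ≤ y from hy) with h | h
    · rw [← h, hF0, Real.zero_rpow (by positivity)]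
      simp
    · simp only [hF]
      have h1 := hC (ξ, y) h
      unfold ss at h1
      simp only at h1
      have h2 : Real.exp (-(c * (ξ ⬝ᵥ ξ + y))) ≤ 1 := by
        rw [Real.exp_le_one_iff]
        have : 0 ≤ c * (ξ ⬝ᵥ ξ + y) := by positivity
        linarith
      have h3 : 0 ≤ y ^ (δ / 2) := Real.rpow_nonneg h.le _
      rw [norm_mul, norm_mul, Real.norm_of_nonneg h3, Real.norm_of_nonneg (Real.exp_nonneg _),
        Real.norm_eq_abs]
      calc Real.exp (-(c * (ξ ⬝ᵥ ξ + y))) * y ^ (δ / 2) * |f (ξ, y)|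
          ≤ 1 * y ^ (δ / 2) * (C * (1 + (ξ ⬝ᵥ ξ + y)) ^ N) := by gcongr
        _ = _ := by ring
  have := integral_Ioi_of_hasDerivAt_of_tendsto hcont hder hi2 hlim
  rw [this, hF0, sub_zero]

end Iby

open Ibx Iby in
theorem iby_holds (_hI : S_INT) : S_IBY := by
  intro j δ c hδ hc f f' hf hf' hp hp' hd
  have hpoly : Poly (fun ω : (Fin j → ℝ) × ℝ =>
      ω.2 * f' ω + (δ / 2) * f ω - c * ω.2 * f ω) := by
    have h1 := poly_add (poly_add (poly_mul poly_snd hp') (poly_mul (poly_const (δ / 2)) hp))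
      (poly_mul (poly_const (-c)) (poly_mul poly_snd hp))
    convert h1 using 2
    ring
  have hmeas : Measurable (fun ω : (Fin j → ℝ) × ℝ =>
      ω.2 * f' ω + (δ / 2) * f ω - c * ω.2 * f ω) :=
    ((measurable_snd.mul hf').add (hf.const_mul _)).sub ((measurable_snd.const_mul c).mul hf)
  have hint := Int.base_int j hδ hc _ hmeas hpoly
  have hint0 := Int.base_int j hδ hc _ (measurable_snd.mul hf) (poly_mul poly_snd hp)
  rw [Int.integral_mu]
  unfold Int.base at hint hint0 ⊢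
  rw [integral_prod _ hint]
  have hz : ∀ᵐ ξ ∂(volume : Measure (Fin j → ℝ)),
      ∫ y in Set.Ioi (0 : ℝ), Int.dens j δ c (ξ, y) * ((ξ, y).2 * f' (ξ, y) + (δ / 2) * f (ξ, y) -
        c * (ξ, y).2 * f (ξ, y)) = 0 := by
    filter_upwards [hint.prod_right_ae, hint0.prod_right_ae] with ξ h1 h2
    exact slice hδ hc f f' ξ hp (fun y hy => hd ξ y hy) h2 h1
  rw [integral_congr_ae hz]
  simp

end Pool.Agent.H972.WG
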