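import Pool.Agent.H972.WG.Stmts

/-! Job WG-PD (helper263): `BW n a` is a probability measure, a.s. positive definite. -/

set_option autoImplicit false
open MeasureTheory ProbabilityTheory Matrix
open scoped ENNReal

namespace Pool.Agent.H972.WG

theorem measurable_build (n : ℕ) :
    Measurable fun q : ℝ × ((Fin n → ℝ) × Matrix (Fin n) (Fin n) ℝ) => build q.1 q.2.1 q.2.2 := by
  refine measurable_pi_iff.mpr fun i => measurable_pi_iff.mpr fun j => ?_
  have hent : ∀ i j : Fin n, Measurable fun S : Matrix (Fin n) (Fin n) ℝ => S i j := fun i j =>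
    (measurable_pi_apply j).comp (measurable_pi_apply (X := fun _ : Fin n => Fin n → ℝ) i)
  refine Fin.cases ?_ (fun i' => ?_) i <;> refine Fin.cases ?_ (fun j' => ?_) j
  · simpa [build] using measurable_fst
  · simp only [build, of_apply, Fin.cons_zero, Fin.cons_succ]
    fun_prop
  · simp only [build, of_apply, Fin.cons_zero, Fin.cons_succ]
    fun_prop
  · simp only [build, of_apply, Fin.cons_succ]
    have h1 : Measurable fun q : ℝ × ((Fin n → ℝ) × Matrix (Fin n) (Fin n) ℝ) => q.2.2 := by
      fun_prop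
    have h2 : Measurable fun q : ℝ × ((Fin n → ℝ) × Matrix (Fin n) (Fin n) ℝ) => q.2.2 i' j' :=
      (hent i' j').comp h1
    refine Measurable.add h2 ?_
    fun_prop

theorem measurable_entry {m n : Type*} (i : m) (j : n) :
    Measurable fun S : Matrix m n ℝ => S i j :=
  (measurable_pi_apply j).comp (measurable_pi_apply (X := fun _ : m => n → ℝ) i)

theorem measurableSet_posDef (n : ℕ) :
    MeasurableSet {X : Matrix (Fin n) (Fin n) ℝ | X.PosDef} := by
  have h : {X : Matrix (Fin n) (Fin n) ℝ | X.PosDef} =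
      {X | Xᵀ = X} ∩ {X | ∀ x : Fin n → ℝ, 0 ≤ x ⬝ᵥ (X *ᵥ x)} ∩ {X | X.det ≠ 0} := by
    ext X
    simp only [Set.mem_ofPred_eq, Set.mem_inter_iff]
    constructor
    · intro hX
      refine ⟨⟨?_, fun x => ?_⟩, hX.det_pos.ne'⟩
      · simpa [IsHermitian] using hX.isHermitian
      · simpa using (posSemidef_iff_dotProduct_mulVec.mp hX.posSemidef).2 x
    · rintro ⟨⟨h1, h2⟩, h3⟩
      have : X.PosSemidef := posSemidef_iff_dotProduct_mulVec.mpr
        ⟨by simpa [IsHermitian] using h1, fun x => by simpa using h2 x⟩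
      exact this.posDef_iff_det_ne_zero.mpr h3
  have : BorelSpace (Matrix (Fin n) (Fin n) ℝ) :=
    inferInstanceAs (BorelSpace (Fin n → Fin n → ℝ))
  rw [h]
  refine MeasurableSet.inter (MeasurableSet.inter ?_ ?_) ?_
  · exact (isClosed_eq (by fun_prop) (by fun_prop)).measurableSet
  · have : {X : Matrix (Fin n) (Fin n) ℝ | ∀ x : Fin n → ℝ, 0 ≤ x ⬝ᵥ (X *ᵥ x)} =
        ⋂ x : Fin n → ℝ, {X | 0 ≤ x ⬝ᵥ (X *ᵥ x)} := by ext X; simp
    rw [this]
    exact (isClosed_iInter fun x => isClosed_le (by fun_prop) (by fun_prop)).measurableSet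
  · exact (isClosed_eq (f := fun X : Matrix (Fin n) (Fin n) ℝ => X.det) (g := fun _ => (0 : ℝ))
      (by fun_prop) (by fun_prop)).measurableSet.compl

theorem chi_pos_ae (a : ℝ) : ∀ᵐ t ∂(chi a), 0 < t := by
  unfold chi gammaMeasure
  rw [ae_withDensity_iff (by
    unfold gammaPDF
    exact (measurable_gammaPDFReal _ _).ennreal_ofReal)]
  have h0 : ∀ᵐ t : ℝ, t ≠ 0 := by
    simp [ae_iff]
  filter_upwards [h0] with t ht hne
  by_contra hle
  exact hne (gammaPDF_of_neg (lt_of_le_of_ne (not_lt.mp hle) ht))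

instance isProb_gauss (n : ℕ) : IsProbabilityMeasure (gauss n) := by
  unfold gauss; infer_instance

theorem isProb_chi {a : ℝ} (ha : 0 < a) : IsProbabilityMeasure (chi a) :=
  isProbabilityMeasure_gammaMeasure (by linarith) (by norm_num)

theorem isProb_BW (n : ℕ) : ∀ a : ℝ, (n : ℝ) - 1 < a → IsProbabilityMeasure (BW n a) := by
  induction n with
  | zero =>
    intro a _
    simp only [BW]
    infer_instance
  | succ n ih =>
    intro a ha
    have ha' : (n : ℝ) < a := by push_cast at ha; linarith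
    have := ih (a - 1) (by linarith)
    have : IsProbabilityMeasure (chi a) := isProb_chi (lt_of_le_of_lt (Nat.cast_nonneg n) ha')
    simp only [BW]
    exact Measure.isProbabilityMeasure_map (measurable_build n).aemeasurable

theorem pd_holds (hH : S_SCHUR) : S_PD := by
  intro n
  suffices h : ∀ a : ℝ, (n : ℝ) - 1 < a → ∀ᵐ X ∂(BW n a), X.PosDef from
    fun a ha => ⟨isProb_BW n a ha, h a ha⟩
  induction n with
  | zero =>
    intro a _
    refine Filter.Eventually.of_forall fun X => ?_
    have : X = 1 := by ext i; exact i.elim0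
    rw [this]
    exact PosDef.one
  | succ n ih =>
    intro a ha
    have ha' : (n : ℝ) < a := by push_cast at ha; linarith
    have := isProb_BW n (a - 1) (by linarith)
    have : IsProbabilityMeasure (chi a) := isProb_chi (lt_of_le_of_lt (Nat.cast_nonneg n) ha')
    simp only [BW]
    rw [ae_map_iff (measurable_build n).aemeasurable (measurableSet_posDef (n + 1))]
    have h1 : ∀ᵐ q : ℝ × ((Fin n → ℝ) × Matrix (Fin n) (Fin n) ℝ)
        ∂((chi a).prod ((gauss n).prod (BW n (a - 1)))), 0 < q.1 :=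
      Measure.quasiMeasurePreserving_fst.ae (chi_pos_ae a)
    have h2 : ∀ᵐ q : ℝ × ((Fin n → ℝ) × Matrix (Fin n) (Fin n) ℝ)
        ∂((chi a).prod ((gauss n).prod (BW n (a - 1)))), q.2.2.PosDef := by
      have h3 : ∀ᵐ r : (Fin n → ℝ) × Matrix (Fin n) (Fin n) ℝ
          ∂((gauss n).prod (BW n (a - 1))), r.2.PosDef :=
        Measure.quasiMeasurePreserving_snd.ae (ih (a - 1) (by linarith))
      exact Measure.quasiMeasurePreserving_snd.ae h3
    filter_upwards [h1, h2] with q hq1 hq2
    exact ((hH n q.1 q.2.1 q.2.2 hq1).1).mpr hq2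

end Pool.Agent.H972.WG
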