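import Pool.Agent.H972.WG.Stmts

/-!
# Project WG (requested by helper435, MP_9d9c13_pr), step PROD.

The product inequality for the standard law `BW n a` and general blocks, from
the statements `S_LAW`, `S_SR`, `S_CHOL`, `S_MOM`, `S_PD`.  (Written by helper828.)
-/

set_option autoImplicit false
open MeasureTheory ProbabilityTheory Matrix Filter Topology
open scoped ENNReal

namespace Pool.Agent.H972.WG

namespace ProdAux

instance instBorelMat (m n : Type*) [Countable m] [Countable n] : BorelSpace (Matrix m n ℝ) :=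
  inferInstanceAs (BorelSpace (m → n → ℝ))

section algebra

variable {q : Type*} [Fintype q] [DecidableEq q]

theorem det_smul_one_add {M : Matrix q q ℝ} (hM : M.PosSemidef) (e : ℝ) :
    (e • (1 : Matrix q q ℝ) + M).det = ∏ i, (e + hM.1.eigenvalues i) := by
  have h1 : (e • (1 : Matrix q q ℝ) + M) = -(Matrix.scalar q (-e) - M) := by
    rw [neg_sub, sub_eq_add_neg, add_comm]
    congr 1
    ext i j
    by_cases h : i = j
    · subst h; simp
    · simp [h]
  rw [h1, Matrix.det_neg, ← Matrix.eval_charpoly, hM.1.charpoly_eq, Polynomial.eval_prod,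
    ← Finset.card_univ, ← Finset.prod_const, ← Finset.prod_mul_distrib]
  refine Finset.prod_congr rfl fun i _ => ?_
  simp
  ring

theorem det_le_det_smul_one_add {M : Matrix q q ℝ} (hM : M.PosSemidef) {e : ℝ} (he : 0 ≤ e) :
    M.det ≤ (e • (1 : Matrix q q ℝ) + M).det := by
  have h0 : M.det = ∏ i, (0 + hM.1.eigenvalues i) := by
    rw [← det_smul_one_add hM 0]; simp
  rw [h0, det_smul_one_add hM e]
  refine Finset.prod_le_prod (fun i _ => ?_) fun i _ => ?_
  · simpa using hM.eigenvalues_nonneg i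
  · linarith

theorem det_mono {M : Matrix q q ℝ} (hM : M.PosSemidef) {e e' : ℝ} (he : 0 ≤ e) (hee : e ≤ e') :
    (e • (1 : Matrix q q ℝ) + M).det ≤ (e' • (1 : Matrix q q ℝ) + M).det := by
  rw [det_smul_one_add hM e, det_smul_one_add hM e']
  refine Finset.prod_le_prod (fun i _ => ?_) fun i _ => ?_
  · exact add_nonneg he (hM.eigenvalues_nonneg i)
  · linarith

theorem det_add_nonneg {M : Matrix q q ℝ} (hM : M.PosSemidef) {e : ℝ} (he : 0 ≤ e) :
    0 ≤ (e • (1 : Matrix q q ℝ) + M).det :=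
  hM.det_nonneg.trans (det_le_det_smul_one_add hM he)

theorem det_one_add_le {M : Matrix q q ℝ} (hM : M.PosSemidef) :
    ((1 : ℝ) • (1 : Matrix q q ℝ) + M).det ≤ (1 + M.trace) ^ Fintype.card q := by
  rw [det_smul_one_add hM 1, ← Finset.card_univ, ← Finset.prod_const]
  refine Finset.prod_le_prod (fun i _ => ?_) fun i _ => ?_
  · exact add_nonneg zero_le_one (hM.eigenvalues_nonneg i)
  · have h2 : M.trace = ∑ i, hM.1.eigenvalues i := by
      have := hM.1.trace_eq_sum_eigenvalues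
      simpa using this
    rw [h2]
    have := Finset.single_le_sum (f := fun i => hM.1.eigenvalues i)
      (fun i _ => hM.eigenvalues_nonneg i) (Finset.mem_univ i)
    linarith

theorem abs_entry_le {M : Matrix q q ℝ} (hM : M.PosSemidef) (i j : q) : |M i j| ≤ M.trace := by
  have hdiag : ∀ k, 0 ≤ M k k := fun k => hM.diag_nonneg
  have hle : ∀ k, M k k ≤ M.trace := fun k =>
    Finset.single_le_sum (f := fun k => M k k) (fun k _ => hdiag k) (Finset.mem_univ k)
  have hsym : M j i = M i j := by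
    have := hM.1.apply i j
    simpa using this
  have hv : ∀ s : ℝ, 0 ≤ M i i + s * M i j + s * M j i + s * s * M j j := by
    intro s
    have := hM.dotProduct_mulVec_nonneg (Pi.single i 1 + s • Pi.single j 1)
    simp only [star_trivial, Matrix.mulVec_add, Matrix.mulVec_smul, Matrix.mulVec_single_one,
      add_dotProduct, smul_dotProduct, dotProduct_add, dotProduct_smul, single_one_dotProduct,
      smul_eq_mul, Matrix.col_apply] at this
    linarith
  have h1 := hv 1
  have h2 := hv (-1)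
  have h3 := hle i
  have h4 := hle j
  rw [abs_le]
  constructor <;> nlinarith

end algebra

/-- `F(Y) = ofReal(det(e I + Y)^ν)`. -/
noncomputable def FF {q : Type*} [Fintype q] [DecidableEq q] (e ν : ℝ) (Y : Matrix q q ℝ) : ℝ≥0∞ :=
  ENNReal.ofReal ((e • (1 : Matrix q q ℝ) + Y).det ^ ν)

theorem FF_measurable {q : Type*} [Fintype q] [DecidableEq q] (e ν : ℝ) :
    Measurable (FF e ν : Matrix q q ℝ → ℝ≥0∞) := by
  unfold FF
  refine Measurable.ennreal_ofReal ?_
  refine Measurable.pow_const ?_ ν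
  refine Continuous.measurable ?_
  exact (continuous_const.add continuous_id).matrix_det

theorem FF_zero {q : Type*} [Fintype q] [DecidableEq q] (ν : ℝ) (Y : Matrix q q ℝ) :
    FF 0 ν Y = ENNReal.ofReal (Y.det ^ ν) := by simp [FF]

theorem FF_mono {q : Type*} [Fintype q] [DecidableEq q] {ν : ℝ} (hν : 0 ≤ ν) {Y : Matrix q q ℝ}
    (hY : Y.PosSemidef) {e e' : ℝ} (he : 0 ≤ e) (hee : e ≤ e') : FF e ν Y ≤ FF e' ν Y :=
  ENNReal.ofReal_le_ofReal (Real.rpow_le_rpow (det_add_nonneg hY he) (det_mono hY he hee) hν)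

theorem FF_tendsto {q : Type*} [Fintype q] [DecidableEq q] {ν : ℝ} (hν : 0 ≤ ν)
    (Y : Matrix q q ℝ) {u : ℕ → ℝ} (hu : Tendsto u atTop (𝓝 0)) :
    Tendsto (fun n => FF (u n) ν Y) atTop (𝓝 (FF 0 ν Y)) := by
  have hc : Continuous fun e : ℝ => FF e ν Y := by
    unfold FF
    refine ENNReal.continuous_ofReal.comp ?_
    refine (Real.continuous_rpow_const hν).comp ?_
    exact ((continuous_id.smul continuous_const).add continuous_const).matrix_det
  exact (hc.tendsto 0).comp hu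

/-- Existence of an enumeration of the index type with a given block first. -/
theorem exists_enum {ι : Type*} [Fintype ι] [DecidableEq ι] {n q : ℕ} (hn : Fintype.card ι = n)
    (f : Fin q → ι) (hf : Function.Injective f) :
    ∃ (hq : q ≤ n) (e : Fin n ≃ ι), ∀ i, e (Fin.castLE hq i) = f i := by
  have hq : q ≤ n := by
    rw [← hn]
    simpa using Fintype.card_le_of_injective f hf
  refine ⟨hq, ?_⟩
  rcases Nat.eq_zero_or_pos q with hq0 | hqpos
  · subst hq0
    exact ⟨(Fintype.equivFinOfCardEq hn).symm, fun i => i.elim0⟩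
  let g : Fin n → ι := fun i => if h : i.1 < q then f ⟨i.1, h⟩ else f ⟨0, hqpos⟩
  let s : Finset (Fin n) := Finset.univ.filter fun i => i.1 < q
  have hcard : Fintype.card (Fin n) = (Finset.univ : Finset ι).card := by
    rw [Finset.card_univ, hn]; simp
  obtain ⟨E, hE⟩ := Finset.exists_equiv_extend_of_card_eq hcard (s := s) (f := g)
    (Finset.subset_univ _) (by
      intro i hi i' hi' h
      have h1 : i.1 < q := by simpa [s] using hi
      have h2 : i'.1 < q := by simpa [s] using hi'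
      have h3 : f ⟨i.1, h1⟩ = f ⟨i'.1, h2⟩ := by simpa [g, h1, h2] using h
      have h4 := hf h3
      exact Fin.ext (by simpa using h4))
  refine ⟨E.trans (Equiv.subtypeUnivEquiv fun x => Finset.mem_univ x), fun i => ?_⟩
  have := hE (Fin.castLE hq i) (by simp [s])
  simp only [Equiv.trans_apply, Equiv.subtypeUnivEquiv_apply]
  rw [this]
  simp [g]

section main

variable {d : ℕ} {p : Fin d → ℕ} {n : ℕ}

/-- The `k`-th diagonal block of a matrix. -/
def blk (k : Fin d) (Y : Matrix ((k : Fin d) × Fin (p k)) ((k : Fin d) × Fin (p k)) ℝ) :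
    Matrix (Fin (p k)) (Fin (p k)) ℝ :=
  Y.submatrix (fun i => (⟨k, i⟩ : (k : Fin d) × Fin (p k))) (fun i => (⟨k, i⟩ : (k : Fin d) × Fin (p k)))

theorem blk_measurable (k : Fin d) : Measurable
    (blk k : Matrix ((k : Fin d) × Fin (p k)) ((k : Fin d) × Fin (p k)) ℝ →
      Matrix (Fin (p k)) (Fin (p k)) ℝ) := by
  refine Continuous.measurable ?_
  exact continuous_id.matrix_submatrix _ _

theorem conj_measurable {ι : Type*} [Fintype ι] (A : Matrix ι (Fin n) ℝ) :
    Measurable fun X : Matrix (Fin n) (Fin n) ℝ => A * X * Aᵀ := by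
  refine Continuous.measurable ?_
  exact (continuous_const.matrix_mul continuous_id).matrix_mul continuous_const

theorem conj_psd {ι : Type*} [Fintype ι] (A : Matrix ι (Fin n) ℝ)
    {X : Matrix (Fin n) (Fin n) ℝ} (hX : X.PosSemidef) : (A * X * Aᵀ).PosSemidef := by
  have := hX.mul_mul_conjTranspose_same A
  simpa using this

theorem blk_psd {Y : Matrix ((k : Fin d) × Fin (p k)) ((k : Fin d) × Fin (p k)) ℝ}
    (hY : Y.PosSemidef) (k : Fin d) : (blk k Y).PosSemidef := hY.submatrix _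

theorem card_sig (hn : ∑ k, p k = n) : Fintype.card ((k : Fin d) × Fin (p k)) = n := by
  rw [Fintype.card_sigma, ← hn]; simp

/-- The tilting step. -/
theorem tilt (hL : S_LAW) (hS : S_SR) (hC : S_CHOL) (hD : S_PD) (hn : ∑ k, p k = n)
    (hp : ∀ k, 1 ≤ p k) (a : ℝ) (ha : (n : ℝ) - 1 < a)
    (A : Matrix ((k : Fin d) × Fin (p k)) (Fin n) ℝ) (hA : (A * Aᵀ).PosDef)
    (ν : Fin d → ℝ) (hν : ∀ k, 0 ≤ ν k) (e : ℝ) (he : 0 < e) (s : Finset (Fin d)) (j : Fin d)
    (hj : j ∉ s) :
    (∫⁻ X, FF 0 (ν j) (blk j (A * X * Aᵀ)) ∂(BW n a)) *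
      (∫⁻ X, ∏ k ∈ s, FF e (ν k) (blk k (A * X * Aᵀ)) ∂(BW n a)) ≤
    ∫⁻ X, FF 0 (ν j) (blk j (A * X * Aᵀ)) * ∏ k ∈ s, FF e (ν k) (blk k (A * X * Aᵀ))
      ∂(BW n a) := by
  classical
  have hcard := card_sig hn
  obtain ⟨hq, E, hE⟩ := exists_enum hcard (fun i : Fin (p j) => (⟨j, i⟩ : (k : Fin d) × Fin (p k)))
    (fun i i' h => by simpa using h)
  have hS' : ((A * Aᵀ).submatrix E E).PosDef := hA.submatrix E.injective
  obtain ⟨L, hL0, hLL⟩ := hC n _ hS'
  set A' : Matrix ((k : Fin d) × Fin (p k)) (Fin n) ℝ := L.submatrix E.symm id with hA'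
  have hAA : A' * A'ᵀ = A * Aᵀ := by
    have h1 : A' * A'ᵀ = (L * Lᵀ).submatrix E.symm E.symm := by
      rw [hA', Matrix.transpose_submatrix,
        ← Matrix.submatrix_mul L Lᵀ (E.symm) id (E.symm) Function.bijective_id]
    rw [h1, hLL, Matrix.submatrix_submatrix]
    simp
  have hlaw : (BW n a).map (fun X => A * X * Aᵀ) = (BW n a).map fun X => A' * X * A'ᵀ :=
    (hL _ n hcard a ha _ hA A rfl).symm.trans (hL _ n hcard a ha _ hA A' hAA)
  have hint : ∀ φ : Matrix ((k : Fin d) × Fin (p k)) ((k : Fin d) × Fin (p k)) ℝ → ℝ≥0∞,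
      Measurable φ → ∫⁻ X, φ (A * X * Aᵀ) ∂(BW n a) = ∫⁻ X, φ (A' * X * A'ᵀ) ∂(BW n a) := by
    intro φ hφ
    rw [← lintegral_map hφ (conj_measurable A), hlaw, lintegral_map hφ (conj_measurable A')]
  have hm1 : Measurable fun Y : Matrix ((k : Fin d) × Fin (p k)) ((k : Fin d) × Fin (p k)) ℝ =>
      FF 0 (ν j) (blk j Y) := (FF_measurable 0 (ν j)).comp (blk_measurable j)
  have hm2 : Measurable fun Y : Matrix ((k : Fin d) × Fin (p k)) ((k : Fin d) × Fin (p k)) ℝ =>
      ∏ k ∈ s, FF e (ν k) (blk k Y) :=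
    Finset.measurable_prod _ fun k _ => (FF_measurable e (ν k)).comp (blk_measurable k)
  have hm3 : Measurable fun Y : Matrix ((k : Fin d) × Fin (p k)) ((k : Fin d) × Fin (p k)) ℝ =>
      FF 0 (ν j) (blk j Y) * ∏ k ∈ s, FF e (ν k) (blk k Y) := hm1.mul hm2
  rw [hint _ hm1, hint _ hm2, hint _ hm3]
  -- the block `j`
  set L1 : Matrix (Fin (p j)) (Fin (p j)) ℝ := L.submatrix (Fin.castLE hq) (Fin.castLE hq) with hL1
  have hsum : ∀ (i : Fin (p j)) (f : Fin n → ℝ),
      ∑ m, L (Fin.castLE hq i) m * f m = ∑ m, L1 i m * f (Fin.castLE hq m) := by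
    intro i f
    refine (Fintype.sum_of_injective (Fin.castLE hq) (Fin.castLE_injective hq) _ _ ?_ ?_).symm
    · intro m hm
      rw [hL0 _ _ ?_, zero_mul]
      by_contra hlt
      rw [not_lt] at hlt
      apply hm
      have h2 : m.1 ≤ i.1 := by
        have := Fin.le_def.1 hlt
        simpa using this
      exact ⟨⟨m.1, lt_of_le_of_lt h2 i.2⟩, Fin.ext (by simp)⟩
    · intro m
      rfl
  have hrow : ∀ (i : Fin (p j)) m, A' ⟨j, i⟩ m = L (Fin.castLE hq i) m := by
    intro i m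
    rw [hA', Matrix.submatrix_apply, ← hE i, Equiv.symm_apply_apply]
    rfl
  have hblk : ∀ X : Matrix (Fin n) (Fin n) ℝ, blk j (A' * X * A'ᵀ) =
      L1 * (X.submatrix (Fin.castLE hq) (Fin.castLE hq)) * L1ᵀ := by
    intro X
    ext i i'
    simp only [blk, Matrix.submatrix_apply, Matrix.mul_apply, Matrix.transpose_apply, hrow]
    rw [Finset.sum_congr rfl fun m' _ => mul_comm _ (L (Fin.castLE hq i') m'), hsum i']
    refine Finset.sum_congr rfl fun m' _ => ?_
    rw [hsum i, mul_comm]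
  have hdet : ∀ᵐ X ∂(BW n a), FF 0 (ν j) (blk j (A' * X * A'ᵀ)) =
      ENNReal.ofReal ((L1.det ^ 2) ^ ν j) *
        ENNReal.ofReal ((X.submatrix (Fin.castLE hq) (Fin.castLE hq)).det ^ ν j) := by
    filter_upwards [(hD n a ha).2] with X hX
    rw [FF_zero, hblk X, Matrix.det_mul, Matrix.det_mul, Matrix.det_transpose,
      ← ENNReal.ofReal_mul (Real.rpow_nonneg (sq_nonneg _) _),
      ← Real.mul_rpow (sq_nonneg _) (hX.posSemidef.submatrix _).det_nonneg]
    congr 2
    ring
  have hGf : ∀ X : Matrix (Fin n) (Fin n) ℝ, ∏ k ∈ s, FF e (ν k) (blk k (A' * X * A'ᵀ)) =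
      Gf (K := {k // k ∈ s}) (fun k => p k.1)
        (fun k => e • (1 : Matrix (Fin (p k.1)) (Fin (p k.1)) ℝ))
        (fun k => A'.submatrix (fun i => (⟨k.1, i⟩ : (k : Fin d) × Fin (p k))) id)
        (fun k => ν k.1) X := by
    intro X
    unfold Gf
    rw [← Finset.prod_coe_sort s]
    refine Finset.prod_congr rfl fun k _ => ?_
    unfold FF
    congr 3
  have hSR := hS (p j) n hq a ha {k // k ∈ s} (fun k => p k.1)
    (fun k => e • (1 : Matrix (Fin (p k.1)) (Fin (p k.1)) ℝ))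
    (fun k => A'.submatrix (fun i => (⟨k.1, i⟩ : (k : Fin d) × Fin (p k))) id)
    (fun k => ν k.1) (ν j) (fun k => ?_) (fun k => hν _) (hν j) ?_
  · simp only [hGf]
    rw [lintegral_congr_ae hdet, lintegral_const_mul' _ _ ENNReal.ofReal_ne_top]
    have h2 : ∀ᵐ X ∂(BW n a), FF 0 (ν j) (blk j (A' * X * A'ᵀ)) * Gf (K := {k // k ∈ s})
        (fun k => p k.1) (fun k => e • (1 : Matrix (Fin (p k.1)) (Fin (p k.1)) ℝ))
        (fun k => A'.submatrix (fun i => (⟨k.1, i⟩ : (k : Fin d) × Fin (p k))) id)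
        (fun k => ν k.1) X = ENNReal.ofReal ((L1.det ^ 2) ^ ν j) *
        (ENNReal.ofReal ((X.submatrix (Fin.castLE hq) (Fin.castLE hq)).det ^ ν j) *
        Gf (K := {k // k ∈ s})
        (fun k => p k.1) (fun k => e • (1 : Matrix (Fin (p k.1)) (Fin (p k.1)) ℝ))
        (fun k => A'.submatrix (fun i => (⟨k.1, i⟩ : (k : Fin d) × Fin (p k))) id)
        (fun k => ν k.1) X) := by
      filter_upwards [hdet] with X hX
      rw [hX, mul_assoc]
    rw [lintegral_congr_ae h2, lintegral_const_mul' _ _ ENNReal.ofReal_ne_top, mul_assoc]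
    gcongr
  · exact Matrix.PosDef.one.smul he
  · by_cases hc : s.card ≤ 1
    · right
      exact Finset.card_le_one_iff_subsingleton_coe.1 hc
    · left
      rw [not_le] at hc
      intro k
      obtain ⟨k', hk', hne⟩ := Finset.exists_mem_ne hc k.1
      have hjk : j ≠ k.1 := fun h => hj (h ▸ k.2)
      have hjk' : j ≠ k' := fun h => hj (h ▸ hk')
      have h3 : p j + (p k.1 + p k') ≤ n := by
        rw [← hn]
        have : ∑ x ∈ ({j, k.1, k'} : Finset (Fin d)), p x = p j + (p k.1 + p k') := by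
          rw [Finset.sum_insert, Finset.sum_insert, Finset.sum_singleton]
          · simpa using hne.symm
          · simp [hjk, hjk']
        rw [← this]
        exact Finset.sum_le_sum_of_subset (Finset.subset_univ _)
      have h4 := hp k'
      have h5 : p j + p k.1 + 1 ≤ n := by omega
      have h6 : (p j : ℝ) + p k.1 + 1 ≤ n := by exact_mod_cast h5
      linarith

/-- The inequality for a finset of blocks, with regularised right-hand side. -/
theorem claim (hL : S_LAW) (hS : S_SR) (hC : S_CHOL) (hD : S_PD) (hn : ∑ k, p k = n)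
    (hp : ∀ k, 1 ≤ p k) (a : ℝ) (ha : (n : ℝ) - 1 < a)
    (A : Matrix ((k : Fin d) × Fin (p k)) (Fin n) ℝ) (hA : (A * Aᵀ).PosDef)
    (ν : Fin d → ℝ) (hν : ∀ k, 0 ≤ ν k) (e : ℝ) (he : 0 < e) (s : Finset (Fin d)) :
    ∏ k ∈ s, ∫⁻ X, FF 0 (ν k) (blk k (A * X * Aᵀ)) ∂(BW n a) ≤
      ∫⁻ X, ∏ k ∈ s, FF e (ν k) (blk k (A * X * Aᵀ)) ∂(BW n a) := by
  classical
  have := (hD n a ha).1
  induction s using Finset.induction_on with
  | empty => simp
  | insert j s hj ih =>
    rw [Finset.prod_insert hj]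
    calc (∫⁻ X, FF 0 (ν j) (blk j (A * X * Aᵀ)) ∂(BW n a)) *
          ∏ k ∈ s, ∫⁻ X, FF 0 (ν k) (blk k (A * X * Aᵀ)) ∂(BW n a)
        ≤ (∫⁻ X, FF 0 (ν j) (blk j (A * X * Aᵀ)) ∂(BW n a)) *
          ∫⁻ X, ∏ k ∈ s, FF e (ν k) (blk k (A * X * Aᵀ)) ∂(BW n a) := by gcongr
      _ ≤ ∫⁻ X, FF 0 (ν j) (blk j (A * X * Aᵀ)) *
          ∏ k ∈ s, FF e (ν k) (blk k (A * X * Aᵀ)) ∂(BW n a) :=
        tilt hL hS hC hD hn hp a ha A hA ν hν e he s j hj
      _ ≤ _ := by
        refine lintegral_mono_ae ?_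
        filter_upwards [(hD n a ha).2] with X hX
        rw [Finset.prod_insert hj]
        gcongr
        exact FF_mono (hν j) (blk_psd (conj_psd A hX.posSemidef) j) le_rfl he.le

/-- The domination. -/
theorem dom (hM : S_MOM) (hD : S_PD) (a : ℝ) (ha : (n : ℝ) - 1 < a)
    (A : Matrix ((k : Fin d) × Fin (p k)) (Fin n) ℝ) (ν : Fin d → ℝ) (hν : ∀ k, 0 ≤ ν k) :
    ∫⁻ X, ∏ k, FF 1 (ν k) (blk k (A * X * Aᵀ)) ∂(BW n a) ≠ ⊤ := by
  classical
  -- constants
  set C : Fin d → ℝ := fun k => ∑ i, ∑ m', ∑ m, |A ⟨k, i⟩ m| * |A ⟨k, i⟩ m'| with hC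
  have hC0 : ∀ k, 0 ≤ C k := fun k =>
    Finset.sum_nonneg fun i _ => Finset.sum_nonneg fun m' _ => Finset.sum_nonneg fun m _ => by
      positivity
  set c : ℝ := 1 + ∑ k, C k with hc
  have hc1 : 1 ≤ c := by
    have := Finset.sum_nonneg fun k (_ : k ∈ (Finset.univ : Finset (Fin d))) => hC0 k
    linarith
  have hCc : ∀ k, C k ≤ c := by
    intro k
    have := Finset.single_le_sum (f := C) (fun k _ => hC0 k) (Finset.mem_univ k)
    linarith
  set N : Fin d → ℕ := fun k => ⌈(p k : ℝ) * ν k⌉₊ with hN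
  have key : ∀ X : Matrix (Fin n) (Fin n) ℝ, X.PosDef → ∏ k, FF 1 (ν k) (blk k (A * X * Aᵀ)) ≤
      ENNReal.ofReal (c ^ ∑ k, N k) * ENNReal.ofReal ((1 + X.trace) ^ ∑ k, N k) := by
    intro X hX
    have htr : 0 ≤ X.trace := hX.posSemidef.trace_nonneg
    have hbase : 1 ≤ c * (1 + X.trace) := by nlinarith
    have hk : ∀ k, FF 1 (ν k) (blk k (A * X * Aᵀ)) ≤ ENNReal.ofReal ((c * (1 + X.trace)) ^ N k) := by
      intro k
      have hpsd := blk_psd (conj_psd A hX.posSemidef) k
      have htrk : (blk k (A * X * Aᵀ)).trace ≤ C k * X.trace := by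
        simp only [Matrix.trace, Matrix.diag, blk, Matrix.submatrix_apply, Matrix.mul_apply,
          Matrix.transpose_apply, hC]
        rw [Finset.sum_mul]
        refine Finset.sum_le_sum fun i _ => ?_
        rw [Finset.sum_mul]
        refine Finset.sum_le_sum fun m' _ => ?_
        rw [Finset.sum_mul, Finset.sum_mul]
        refine Finset.sum_le_sum fun m _ => ?_
        have h1 := abs_entry_le hX.posSemidef m m'
        have h2 : A ⟨k, i⟩ m * X m m' * A ⟨k, i⟩ m' ≤ |A ⟨k, i⟩ m| * |X m m'| * |A ⟨k, i⟩ m'| := by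
          rw [← abs_mul, ← abs_mul]
          exact le_abs_self _
        have h3 : |A ⟨k, i⟩ m| * |X m m'| * |A ⟨k, i⟩ m'| =
            |A ⟨k, i⟩ m| * |A ⟨k, i⟩ m'| * |X m m'| := by ring
        rw [h3] at h2
        refine h2.trans ?_
        exact mul_le_mul_of_nonneg_left h1 (by positivity)
      have h1 : ((1 : ℝ) • (1 : Matrix (Fin (p k)) (Fin (p k)) ℝ) + blk k (A * X * Aᵀ)).det ≤
          (c * (1 + X.trace)) ^ (p k) := by
        refine (det_one_add_le hpsd).trans ?_
        rw [Fintype.card_fin]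
        refine pow_le_pow_left₀ (by linarith [hpsd.trace_nonneg]) ?_ _
        have := hCc k
        nlinarith
      refine ENNReal.ofReal_le_ofReal ?_
      calc ((1 : ℝ) • (1 : Matrix (Fin (p k)) (Fin (p k)) ℝ) + blk k (A * X * Aᵀ)).det ^ ν k
          ≤ ((c * (1 + X.trace)) ^ (p k)) ^ ν k :=
            Real.rpow_le_rpow (det_add_nonneg hpsd zero_le_one) h1 (hν k)
        _ = (c * (1 + X.trace)) ^ ((p k : ℝ) * ν k) := by
            rw [← Real.rpow_natCast, ← Real.rpow_mul (by linarith)]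
        _ ≤ (c * (1 + X.trace)) ^ ((N k : ℕ) : ℝ) :=
            Real.rpow_le_rpow_of_exponent_le hbase (Nat.le_ceil _)
        _ = (c * (1 + X.trace)) ^ N k := Real.rpow_natCast _ _
    calc ∏ k, FF 1 (ν k) (blk k (A * X * Aᵀ))
        ≤ ∏ k, ENNReal.ofReal ((c * (1 + X.trace)) ^ N k) :=
          Finset.prod_le_prod' fun k _ => hk k
      _ = ENNReal.ofReal ((c * (1 + X.trace)) ^ ∑ k, N k) := by
          rw [← ENNReal.ofReal_prod_of_nonneg (fun k _ => by positivity), Finset.prod_pow_eq_pow_sum]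
      _ = _ := by
          rw [mul_pow, ENNReal.ofReal_mul (by positivity)]
  have hle : ∫⁻ X, ∏ k, FF 1 (ν k) (blk k (A * X * Aᵀ)) ∂(BW n a) ≤
      ∫⁻ X, ENNReal.ofReal (c ^ ∑ k, N k) * ENNReal.ofReal ((1 + X.trace) ^ ∑ k, N k) ∂(BW n a) := by
    refine lintegral_mono_ae ?_
    filter_upwards [(hD n a ha).2] with X hX
    exact key X hX
  rw [lintegral_const_mul' _ _ ENNReal.ofReal_ne_top] at hle
  exact ne_top_of_le_ne_top (ENNReal.mul_ne_top ENNReal.ofReal_ne_top (hM n a ha _)) hle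

end main

end ProdAux

open ProdAux in
/-- The product inequality (step PROD of project WG). -/
theorem prod_holds (hL : S_LAW) (hS : S_SR) (hC : S_CHOL) (hM : S_MOM) (hD : S_PD) : S_PROD := by
  intro d p n hn hp a ha A hA ν hν
  have hlim : Tendsto (fun m : ℕ => ∫⁻ X, ∏ k, FF (1 / ((m : ℝ) + 1)) (ν k) (blk k (A * X * Aᵀ))
      ∂(BW n a)) atTop (𝓝 (∫⁻ X, ∏ k, FF 0 (ν k) (blk k (A * X * Aᵀ)) ∂(BW n a))) := by
    refine tendsto_lintegral_of_dominated_convergence
      (fun X => ∏ k, FF 1 (ν k) (blk k (A * X * Aᵀ))) ?_ ?_ (dom hM hD a ha A ν hν) ?_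
    · intro m
      exact Finset.measurable_prod _ fun k _ =>
        ((FF_measurable _ (ν k)).comp (blk_measurable k)).comp (conj_measurable A)
    · intro m
      filter_upwards [(hD n a ha).2] with X hX
      refine Finset.prod_le_prod' fun k _ => ?_
      refine FF_mono (hν k) (blk_psd (conj_psd A hX.posSemidef) k) (by positivity) ?_
      rw [div_le_one (by positivity)]
      linarith [Nat.cast_nonneg (α := ℝ) m]
    · refine Filter.Eventually.of_forall fun X => ?_
      refine ENNReal.tendsto_finsetProd_of_ne_top _ (fun k _ => ?_) fun k _ => ENNReal.ofReal_ne_top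
      exact FF_tendsto (hν k) _ tendsto_one_div_add_atTop_nhds_zero_nat
  have hge : ∏ k, ∫⁻ X, FF 0 (ν k) (blk k (A * X * Aᵀ)) ∂(BW n a) ≤
      ∫⁻ X, ∏ k, FF 0 (ν k) (blk k (A * X * Aᵀ)) ∂(BW n a) :=
    ge_of_tendsto' hlim fun m =>
      claim hL hS hC hD hn hp a ha A hA ν hν _ (by positivity) Finset.univ
  simp only [FF_zero] at hge
  exact hge

end Pool.Agent.H972.WG
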