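import Pool.Agent.H972.WG.Stmts2
import Pool.Agent.H972.WG.Sr
import Pool.Agent.H972.WG.Pd

/-! The scalar case: one block by the Anderson-type monotonicity and association, several blocks
by the generalised core inequality. -/

set_option autoImplicit false
open MeasureTheory ProbabilityTheory Matrix
open scoped ENNReal

namespace Pool.Agent.H972.WG

namespace ScX

theorem four {a b c d : ℝ≥0∞} (hab : a ≤ b) (hcd : c ≤ d) : a * d + b * c ≤ a * c + b * d := by
  obtain ⟨e, rfl⟩ := exists_add_of_le hab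
  obtain ⟨f, rfl⟩ := exists_add_of_le hcd
  calc a * (c + f) + (a + e) * c ≤ a * (c + f) + (a + e) * c + e * f := le_self_add
    _ = a * c + (a + e) * (c + f) := by ring

/-- Chebyshev's association inequality on `(0,∞)`. -/
theorem assoc {μ : Measure ℝ} [IsProbabilityMeasure μ] (hpos : ∀ᵐ t ∂μ, 0 < t)
    {f g : ℝ → ℝ≥0∞} (hf : Measurable f) (hg : Measurable g)
    (mf : ∀ s t, 0 < s → s ≤ t → f s ≤ f t) (mg : ∀ s t, 0 < s → s ≤ t → g s ≤ g t) :
    (∫⁻ t, f t ∂μ) * (∫⁻ t, g t ∂μ) ≤ ∫⁻ t, f t * g t ∂μ := by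
  have h1 : ∫⁻ x, ∫⁻ y, (f x * g y + f y * g x) ∂μ ∂μ ≤ ∫⁻ x, ∫⁻ y, (f x * g x + f y * g y) ∂μ ∂μ := by
    refine lintegral_mono_ae ?_
    filter_upwards [hpos] with x hx
    refine lintegral_mono_ae ?_
    filter_upwards [hpos] with y hy
    rcases le_total x y with h | h
    · exact four (mf x y hx h) (mg x y hx h)
    · have := four (mf y x hy h) (mg y x hy h)
      calc f x * g y + f y * g x = f y * g x + f x * g y := add_comm _ _
        _ ≤ f y * g y + f x * g x := this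
        _ = f x * g x + f y * g y := add_comm _ _
  have e1 : ∫⁻ x, ∫⁻ y, (f x * g y + f y * g x) ∂μ ∂μ =
      2 * ((∫⁻ t, f t ∂μ) * (∫⁻ t, g t ∂μ)) := by
    have : ∀ x, ∫⁻ y, (f x * g y + f y * g x) ∂μ = f x * (∫⁻ t, g t ∂μ) + (∫⁻ t, f t ∂μ) * g x := by
      intro x
      rw [lintegral_add_left (f := fun y => f x * g y) (hg.const_mul (f x)),
        lintegral_const_mul _ hg, lintegral_mul_const _ hf]
    simp only [this]
    rw [lintegral_add_left (f := fun x => f x * ∫⁻ t, g t ∂μ) (hf.mul_const _),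
      lintegral_mul_const _ hf, lintegral_const_mul _ hg, two_mul]
  have e2 : ∫⁻ x, ∫⁻ y, (f x * g x + f y * g y) ∂μ ∂μ = 2 * ∫⁻ t, f t * g t ∂μ := by
    have : ∀ x, ∫⁻ y, (f x * g x + f y * g y) ∂μ = f x * g x + ∫⁻ t, f t * g t ∂μ := by
      intro x
      rw [lintegral_add_left measurable_const, lintegral_const]
      simp
    simp only [this]
    rw [lintegral_add_left (f := fun x => f x * g x) (hf.mul hg), lintegral_const]
    simp [two_mul]
  rw [e1, e2] at h1
  exact (ENNReal.mul_le_mul_iff_right (by norm_num) (by norm_num)).1 h1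

open SrX

theorem meas3 {n : ℕ} {G : Matrix (Fin (n + 1)) (Fin (n + 1)) ℝ → ℝ≥0∞} (hG : Measurable G) :
    Measurable (fun q : ℝ × ((Fin n → ℝ) × Matrix (Fin n) (Fin n) ℝ) =>
      G (build q.1 q.2.1 q.2.2)) := hG.comp (meas_build n)

theorem meas3a {n : ℕ} {G : Matrix (Fin (n + 1)) (Fin (n + 1)) ℝ → ℝ≥0∞} (hG : Measurable G) :
    Measurable (fun q : (ℝ × Matrix (Fin n) (Fin n) ℝ) × (Fin n → ℝ) =>
      G (build q.1.1 q.2 q.1.2)) := by
  have h : Measurable (fun q : (ℝ × Matrix (Fin n) (Fin n) ℝ) × (Fin n → ℝ) =>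
      ((q.1.1, (q.2, q.1.2)) : ℝ × ((Fin n → ℝ) × Matrix (Fin n) (Fin n) ℝ))) :=
    (measurable_fst.comp measurable_fst).prodMk
      (measurable_snd.prodMk (measurable_snd.comp measurable_fst))
  exact (meas3 hG).comp h

theorem meas3b {n : ℕ} {G : Matrix (Fin (n + 1)) (Fin (n + 1)) ℝ → ℝ≥0∞} (hG : Measurable G)
    (t : ℝ) : Measurable (fun q : (Fin n → ℝ) × Matrix (Fin n) (Fin n) ℝ =>
      G (build t q.1 q.2)) := by
  have h : Measurable (fun q : (Fin n → ℝ) × Matrix (Fin n) (Fin n) ℝ =>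
      ((t, (q.1, q.2)) : ℝ × ((Fin n → ℝ) × Matrix (Fin n) (Fin n) ℝ))) :=
    measurable_const.prodMk (measurable_fst.prodMk measurable_snd)
  exact (meas3 hG).comp h

theorem meas3c {n : ℕ} {G : Matrix (Fin (n + 1)) (Fin (n + 1)) ℝ → ℝ≥0∞} (hG : Measurable G)
    (t : ℝ) (η : Fin n → ℝ) : Measurable (fun S : Matrix (Fin n) (Fin n) ℝ =>
      G (build t η S)) := by
  have h : Measurable (fun S : Matrix (Fin n) (Fin n) ℝ =>
      ((t, (η, S)) : ℝ × ((Fin n → ℝ) × Matrix (Fin n) (Fin n) ℝ))) :=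
    measurable_const.prodMk (measurable_const.prodMk measurable_id)
  exact (meas3 hG).comp h

/-- The three integral identities for the scalar case. -/
theorem split3 {n : ℕ} {a : ℝ} (h1 : IsProbabilityMeasure (BW n (a - 1)))
    {G : Matrix (Fin (n + 1)) (Fin (n + 1)) ℝ → ℝ≥0∞} (hG : Measurable G) (φ : ℝ → ℝ≥0∞)
    (hφ : Measurable φ) :
    ∫⁻ X, φ (X 0 0) * G X ∂(BW (n + 1) a) =
      ∫⁻ t, φ t * ∫⁻ S, ∫⁻ η, G (build t η S) ∂(gauss n) ∂(BW n (a - 1)) ∂(chi a) := by
  have m : Measurable (fun X : Matrix (Fin (n + 1)) (Fin (n + 1)) ℝ => φ (X 0 0) * G X) :=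
    (hφ.comp (meas_entry 0 0)).mul hG
  rw [lint_BW h1 m]
  refine lintegral_congr fun t => ?_
  have e : ∀ η : Fin n → ℝ, ∫⁻ S, φ (build t η S 0 0) * G (build t η S) ∂(BW n (a - 1)) =
      φ t * ∫⁻ S, G (build t η S) ∂(BW n (a - 1)) := by
    intro η
    rw [← lintegral_const_mul _ (meas3c hG t η)]
    rfl
  have hout : Measurable (fun η : Fin n → ℝ => ∫⁻ S, G (build t η S) ∂(BW n (a - 1))) :=
    (meas3b hG t).lintegral_prod_right'
  rw [lintegral_congr e, lintegral_const_mul _ hout,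
    lintegral_lintegral_swap (meas3b hG t).aemeasurable]

theorem meas_h {n : ℕ} {a : ℝ} (h1 : IsProbabilityMeasure (BW n (a - 1)))
    {G : Matrix (Fin (n + 1)) (Fin (n + 1)) ℝ → ℝ≥0∞} (hG : Measurable G) :
    Measurable fun t => ∫⁻ S, ∫⁻ η, G (build t η S) ∂(gauss n) ∂(BW n (a - 1)) := by
  have m2 : Measurable (fun q : ℝ × Matrix (Fin n) (Fin n) ℝ =>
        ∫⁻ η, G (build q.1 η q.2) ∂(gauss n)) := (meas3a hG).lintegral_prod_right'
  exact m2.lintegral_prod_right'

theorem prod_snd {n : ℕ} {a : ℝ} (h1 : IsProbabilityMeasure (BW (n + 1) a))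
    {F : Matrix (Fin (n + 1)) (Fin (n + 1)) ℝ → ℝ≥0∞} (hF : Measurable F) :
    ∫⁻ q : (Fin 0 → ℝ) × Matrix (Fin (n + 1)) (Fin (n + 1)) ℝ, F q.2
      ∂((gauss 0).prod (BW (n + 1) a)) = ∫⁻ X, F X ∂(BW (n + 1) a) := by
  have hg0 : IsProbabilityMeasure (gauss 0) := gauss_prob 0
  have hm : Measurable (fun q : (Fin 0 → ℝ) × Matrix (Fin (n + 1)) (Fin (n + 1)) ℝ => F q.2) :=
    hF.comp measurable_snd
  rw [lintegral_prod _ hm.aemeasurable]
  simp

end ScX

open SrX ScX in
theorem scs_holds (hA : S_AND) (hD : S_PD) : S_SCS := by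
  intro n a ha p R C ν ν0 hR hν hν0
  have ha2 : (n : ℝ) - 1 < a - 1 := by linarith
  have ha0 : 0 < a := lt_of_le_of_lt (Nat.cast_nonneg n) ha
  have h1 := (hD n (a - 1) ha2).1
  have h2 := (hD n (a - 1) ha2).2
  have h3 := SrX.chi_prob ha0
  have h4 := SrX.chi_pos a
  set C' : Matrix (Fin p) (Fin n) ℝ := C.submatrix id Fin.succ with hC'
  set c : Fin p → ℝ := fun i => C i 0 with hc
  have mG : Measurable (fun X : Matrix (Fin (n + 1)) (Fin (n + 1)) ℝ =>
      ENNReal.ofReal ((R + C * X * Cᵀ).det ^ ν)) := ((meas_det R C).pow_const ν).ennreal_ofReal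
  have m0 : Measurable (fun X : Matrix (Fin (n + 1)) (Fin (n + 1)) ℝ =>
      ENNReal.ofReal (X 0 0 ^ ν0)) := ((meas_entry 0 0).pow_const ν0).ennreal_ofReal
  -- the function of t
  set h : ℝ → ℝ≥0∞ := fun t => ∫⁻ S, ∫⁻ η, ENNReal.ofReal ((R + C * build t η S * Cᵀ).det ^ ν)
    ∂(gauss n) ∂(BW n (a - 1)) with hh
  have mh : Measurable h := meas_h h1 mG
  have hmono : ∀ s t, 0 < s → s ≤ t → h s ≤ h t := by
    intro s t hs hst
    refine lintegral_mono_ae ?_
    filter_upwards [h2] with S hS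
    have hApd : (R + C' * S * C'ᵀ).PosDef := by
      refine hR.add_posSemidef ?_
      have := hS.posSemidef.mul_mul_conjTranspose_same C'
      simpa using this
    have key := hA p n (R + C' * S * C'ᵀ) C' c ν hApd hν (√s) (√t) (Real.sqrt_nonneg _)
      (Real.sqrt_le_sqrt hst)
    have e : ∀ u : ℝ, 0 ≤ u → ∀ η : Fin n → ℝ, R + C * build u η S * Cᵀ =
        (R + C' * S * C'ᵀ) + vecMulVec (√u • c + C' *ᵥ η) (√u • c + C' *ᵥ η) := by
      intro u hu η
      have hv : C *ᵥ rr u η = √u • c + C' *ᵥ η := by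
        ext i
        simp only [mulVec, dotProduct, rr, Fin.sum_univ_succ, Fin.cons_zero, Fin.cons_succ,
          Pi.add_apply, Pi.smul_apply, smul_eq_mul, hc, hC', submatrix_apply, id]
        ring
      rw [conj_build hu, hv, add_right_comm]
    simp only [e s hs.le, e t (hs.le.trans hst)]
    exact key
  have mφ : Measurable (fun t : ℝ => ENNReal.ofReal (t ^ ν0)) :=
    (measurable_id.pow_const ν0).ennreal_ofReal
  have hI1 : ∫⁻ X, ENNReal.ofReal (X 0 0 ^ ν0) ∂(BW (n + 1) a) =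
      ∫⁻ t, ENNReal.ofReal (t ^ ν0) ∂(chi a) := by
    rw [lint_BW h1 m0]
    simp [build_00]
  have hI2 : ∫⁻ X, ENNReal.ofReal ((R + C * X * Cᵀ).det ^ ν) ∂(BW (n + 1) a) =
      ∫⁻ t, h t ∂(chi a) := by
    have := split3 h1 mG (fun _ => 1) measurable_const
    simpa only [one_mul] using this
  have hI3 : ∫⁻ X, ENNReal.ofReal (X 0 0 ^ ν0) * ENNReal.ofReal ((R + C * X * Cᵀ).det ^ ν)
      ∂(BW (n + 1) a) = ∫⁻ t, ENNReal.ofReal (t ^ ν0) * h t ∂(chi a) :=
    split3 h1 mG (fun t => ENNReal.ofReal (t ^ ν0)) mφ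
  rw [hI1, hI2, hI3]
  refine assoc h4 mφ mh ?_ hmono
  intro s t hs hst
  exact ENNReal.ofReal_le_ofReal (Real.rpow_le_rpow hs.le hst hν0)

open SrX ScX in
theorem sc_holds (hG : S_GEN) (hP : S_PERM) (hS : S_SCS) (hD : S_PD) : S_SC := by
  intro n a ha K _ p R C ν ν0 hR hν hν0 hcond
  have ha1 : ((n + 1 : ℕ) : ℝ) - 1 < a := by push_cast; linarith
  have hpr := (hD (n + 1) a ha1).1
  rcases hcond with hcond | hcond
  · -- several blocks: the generalised core inequality
    -- move coordinate `0` to the last place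
    set σ : Equiv.Perm (Fin (n + 1)) := Equiv.swap 0 (Fin.last n) with hσ
    have hB := hP (n + 1) a ha1 σ
    have hm : Measurable (fun X : Matrix (Fin (n + 1)) (Fin (n + 1)) ℝ => X.submatrix σ σ) := by
      refine measurable_pi_lambda _ fun i => measurable_pi_lambda _ fun j => ?_
      exact meas_entry (σ i) (σ j)
    have hI : ∀ F : Matrix (Fin (n + 1)) (Fin (n + 1)) ℝ → ℝ≥0∞, Measurable F →
        ∫⁻ X, F X ∂(BW (n + 1) a) = ∫⁻ X, F (X.submatrix σ σ) ∂(BW (n + 1) a) := by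
      intro F hF
      conv_lhs => rw [← hB]
      rw [lintegral_map hF hm]
    have mG := meas_Gf p R C ν
    have m0 : Measurable (fun X : Matrix (Fin (n + 1)) (Fin (n + 1)) ℝ =>
        ENNReal.ofReal (X 0 0 ^ ν0)) := ((meas_entry 0 0).pow_const ν0).ennreal_ofReal
    have m01 : Measurable (fun X : Matrix (Fin (n + 1)) (Fin (n + 1)) ℝ =>
        ENNReal.ofReal (X 0 0 ^ ν0) * Gf p R C ν X) := m0.mul mG
    rw [hI _ m0, hI _ mG, hI _ m01]
    have hσ0 : σ 0 = Fin.last n := by simp [hσ]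
    -- change of matrices
    have hCσ : ∀ k, ∀ X : Matrix (Fin (n + 1)) (Fin (n + 1)) ℝ,
        C k * X.submatrix σ σ * (C k)ᵀ =
          (C k).submatrix id σ.symm * X * ((C k).submatrix id σ.symm)ᵀ := by
      intro k X
      ext i j
      simp only [mul_apply, submatrix_apply, transpose_apply, id]
      rw [← Equiv.sum_comp σ.symm]
      refine Finset.sum_congr rfl fun x _ => ?_
      rw [← Equiv.sum_comp σ.symm]
      simp
    have hgen := hG n 0 a ha K p R (fun k => 0) (fun k => (C k).submatrix id σ.symm) ν ν0 hR hν hν0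
      (fun k => by have := hcond k; simpa using this)
    have hg0 : IsProbabilityMeasure (gauss 0) := gauss_prob 0
    -- simplify the integrals over the trivial Gaussian factor
    have hz : ∀ k (x : Fin 0 → ℝ), vecMulVec (fun i => ((C k).submatrix id σ.symm) i (Fin.last n)) x
        = (0 : Matrix (Fin (p k)) (Fin 0) ℝ) := by
      intro k x
      ext i j
      exact j.elim0
    have hx0 : ∀ x : Fin 0 → ℝ, x ⬝ᵥ x = 0 := fun x => by simp [dotProduct]
    simp only [hx0, hz, zero_add, Matrix.zero_mul, add_zero] at hgen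
    have mlast : Measurable (fun X : Matrix (Fin (n + 1)) (Fin (n + 1)) ℝ =>
        ENNReal.ofReal (X (Fin.last n) (Fin.last n) ^ ν0)) :=
      ((meas_entry _ _).pow_const ν0).ennreal_ofReal
    have mG2 : Measurable (fun X : Matrix (Fin (n + 1)) (Fin (n + 1)) ℝ =>
        ∏ k, ENNReal.ofReal ((R k + (C k).submatrix id σ.symm * X *
          ((C k).submatrix id σ.symm)ᵀ).det ^ ν k)) := by
      have := meas_Gf p R (fun k => (C k).submatrix id σ.symm) ν
      unfold Gf at this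
      exact this
    have mlG : Measurable (fun X : Matrix (Fin (n + 1)) (Fin (n + 1)) ℝ =>
        ENNReal.ofReal (X (Fin.last n) (Fin.last n) ^ ν0) *
        ∏ k, ENNReal.ofReal ((R k + (C k).submatrix id σ.symm * X *
          ((C k).submatrix id σ.symm)ᵀ).det ^ ν k)) := mlast.mul mG2
    rw [prod_snd hpr mlast, prod_snd hpr mG2, prod_snd hpr mlG] at hgen
    simpa only [Gf, hCσ, submatrix_apply, hσ0] using hgen
  · -- at most one block
    rcases isEmpty_or_nonempty K with hK | ⟨⟨k0⟩⟩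
    · simp [Gf]
    · have hu : ∀ F : K → ℝ≥0∞, ∏ k, F k = F k0 := by
        intro F
        have : Unique K := { default := k0, uniq := fun k => Subsingleton.elim _ _ }
        rw [Fintype.prod_unique]
        exact congrArg F (Subsingleton.elim _ _)
      have := hS n a ha (p k0) (R k0) (C k0) (ν k0) ν0 (hR k0) (hν k0) hν0
      simpa only [Gf, hu] using this

end Pool.Agent.H972.WG
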