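import Pool.Agent.H972.WG.A
import Pool.Agent.H972.WG.And
import Pool.Agent.H972.WG.Chol
import Pool.Agent.H972.WG.Cong
import Pool.Agent.H972.WG.Core
import Pool.Agent.H972.WG.Dens
import Pool.Agent.H972.WG.Frac
import Pool.Agent.H972.WG.Gen
import Pool.Agent.H972.WG.Glue
import Pool.Agent.H972.WG.Ibx
import Pool.Agent.H972.WG.Iby
import Pool.Agent.H972.WG.Int
import Pool.Agent.H972.WG.Law
import Pool.Agent.H972.WG.Mom
import Pool.Agent.H972.WG.Mug
import Pool.Agent.H972.WG.Pd
import Pool.Agent.H972.WG.Perm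
import Pool.Agent.H972.WG.Prod
import Pool.Agent.H972.WG.Quad
import Pool.Agent.H972.WG.Schur
import Pool.Agent.H972.WG.Sr
import Pool.Agent.H972.WG.Sc
import Pool.Agent.H972.WG.Wbw
import Pool.Agent.H972.WG.Wrec
import Pool.Agent.H972.WG.Stmts2

/-! Assembly of the product inequality. -/

set_option autoImplicit false
open MeasureTheory ProbabilityTheory Matrix
open scoped ENNReal

namespace Pool.Agent.H972.WG

theorem all_schur : S_SCHUR := schur_holds
theorem all_pd : S_PD := pd_holds all_schur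
theorem all_wrec : S_WREC := wrec_holds glue_holds all_schur
theorem all_wbw : S_WBW := wbw_holds all_wrec
theorem all_dens : S_DENS := dens_holds all_wbw all_pd
theorem all_law : S_LAW := law_holds all_dens cong_holds
theorem all_perm : S_PERM := perm_holds all_wbw
theorem all_int : S_INT := int_holds
theorem all_ibx : S_IBX := ibx_holds all_int
theorem all_iby : S_IBY := iby_holds all_int
theorem all_A : S_A := A_holds all_int all_ibx all_iby
theorem all_core : S_CORE := core_holds quad_holds all_A frac_holds mug_holds all_ibx all_iby all_int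
theorem all_gen : S_GEN := gen_holds all_core
theorem all_scs : S_SCS := scs_holds and_holds all_pd
theorem all_sc : S_SC := sc_holds all_gen all_perm all_scs all_pd
theorem all_sr : S_SR := sr_holds all_sc all_schur all_pd
theorem all_mom : S_MOM := mom_holds all_pd
theorem all_prod : S_PROD := prod_holds all_law all_sr chol_holds all_mom all_pd

open ProdAux in
theorem final_holds : S_FINAL := by
  classical
  intro d p hd hp α hα S hS
  obtain ⟨n, hn⟩ : ∃ n, ∑ k, p k = n := ⟨_, rfl⟩
  have hα' : (n : ℝ) - 1 < α := by rw [← hn]; push_cast; exact hα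
  have hcard := card_sig hn
  set E : Fin n ≃ ((k : Fin d) × Fin (p k)) := (Fintype.equivFinOfCardEq hcard).symm with hE
  have hS' : (S.submatrix E E).PosDef := hS.submatrix E.injective
  obtain ⟨L, hL0, hLL⟩ := chol_holds n _ hS'
  set A : Matrix ((k : Fin d) × Fin (p k)) (Fin n) ℝ := L.submatrix E.symm id with hA
  have hAA : A * Aᵀ = S := by
    have h1 : A * Aᵀ = (L * Lᵀ).submatrix E.symm E.symm := by
      rw [hA, Matrix.transpose_submatrix,
        ← Matrix.submatrix_mul L Lᵀ (E.symm) id (E.symm) Function.bijective_id]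
    rw [h1, hLL, Matrix.submatrix_submatrix]
    simp
  have hlaw : (wishart α S).map symMat = (BW n α).map fun X => A * X * Aᵀ :=
    all_law _ n hcard α hα' S hS A hAA
  have hpr := (all_pd n α hα').1
  have hsm : Measurable (symMat : (Sym2 ((k : Fin d) × Fin (p k)) → ℝ) → _) :=
    Wrec.symMat_measurable
  have hint : ∀ φ : Matrix ((k : Fin d) × Fin (p k)) ((k : Fin d) × Fin (p k)) ℝ → ℝ≥0∞,
      Measurable φ → ∫⁻ x, φ (symMat x) ∂(wishart α S) = ∫⁻ X, φ (A * X * Aᵀ) ∂(BW n α) := by
    intro φ hφ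
    rw [← lintegral_map hφ hsm, hlaw, lintegral_map hφ (conj_measurable A)]
  have hprob : IsProbabilityMeasure (wishart α S) := by
    refine ⟨?_⟩
    have := hint (fun _ => 1) measurable_const
    simpa using this
  refine ⟨hprob, fun ν hν => ?_⟩
  -- positivity
  have hcone : ∀ᵐ x ∂(wishart α S), (symMat x).PosDef := by
    have h1 : ∀ᵐ x ∂((volume : Measure (Sym2 ((k : Fin d) × Fin (p k)) → ℝ)).restrict
        (cone ((k : Fin d) × Fin (p k)))), (symMat x).PosDef :=
      ae_restrict_mem (Wrec.measurableSet_cone _)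
    exact (withDensity_absolutelyContinuous _ _).ae_le h1
  have hbm : ∀ k, Measurable fun Y : Matrix ((k : Fin d) × Fin (p k)) ((k : Fin d) × Fin (p k)) ℝ =>
      (Y.submatrix (Sigma.mk k) (Sigma.mk k)).det ^ ν k := by
    intro k
    have h1 : Continuous fun Y : Matrix ((k : Fin d) × Fin (p k)) ((k : Fin d) × Fin (p k)) ℝ =>
        (Y.submatrix (Sigma.mk k) (Sigma.mk k)).det :=
      (continuous_id.matrix_submatrix _ _).matrix_det
    exact h1.measurable.pow_const _
  have hdom := dom all_mom all_pd α hα' A ν hν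
  have hpos : ∀ Y : Matrix ((k : Fin d) × Fin (p k)) ((k : Fin d) × Fin (p k)) ℝ, Y.PosDef →
      ∀ k, 0 ≤ (Y.submatrix (Sigma.mk k) (Sigma.mk k)).det ^ ν k := fun Y hY k =>
    Real.rpow_nonneg ((hY.posSemidef.submatrix _).det_nonneg) _
  -- finiteness
  have hfin : ∀ s : Finset (Fin d), ∫⁻ x, ∏ k ∈ s, ENNReal.ofReal
      (((symMat x).submatrix (Sigma.mk k) (Sigma.mk k)).det ^ ν k) ∂(wishart α S) ≠ ⊤ := by
    intro s
    have hm : Measurable fun Y : Matrix ((k : Fin d) × Fin (p k)) ((k : Fin d) × Fin (p k)) ℝ =>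
        ∏ k ∈ s, ENNReal.ofReal ((Y.submatrix (Sigma.mk k) (Sigma.mk k)).det ^ ν k) :=
      Finset.measurable_fun_prod _ fun k _ => (hbm k).ennreal_ofReal
    rw [hint _ hm]
    refine ne_top_of_le_ne_top hdom ?_
    refine lintegral_mono_ae ?_
    filter_upwards [(all_pd n α hα').2] with X hX
    have h1 : ∀ k, 1 ≤ FF 1 (ν k) (blk k (A * X * Aᵀ)) := by
      intro k
      have hps := blk_psd (conj_psd A hX.posSemidef) k
      have h2 : 1 ≤ ((1 : ℝ) • (1 : Matrix (Fin (p k)) (Fin (p k)) ℝ) + blk k (A * X * Aᵀ)).det := by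
        rw [det_smul_one_add hps 1]
        have h3 := Finset.prod_le_prod (s := Finset.univ) (f := fun _ : Fin (p k) => (1 : ℝ))
          (g := fun i => 1 + hps.1.eigenvalues i) (fun _ _ => zero_le_one)
          (fun i _ => by linarith [hps.eigenvalues_nonneg i])
        simpa using h3
      unfold FF
      rw [ENNReal.one_le_ofReal]
      exact Real.one_le_rpow h2 (hν k)
    calc ∏ k ∈ s, ENNReal.ofReal (((A * X * Aᵀ).submatrix (Sigma.mk k) (Sigma.mk k)).det ^ ν k)
        ≤ ∏ k ∈ s, FF 1 (ν k) (blk k (A * X * Aᵀ)) := by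
          refine Finset.prod_le_prod' fun k _ => ?_
          have := FF_mono (hν k) (blk_psd (conj_psd A hX.posSemidef) k) le_rfl zero_le_one
          rw [FF_zero] at this
          exact this
      _ ≤ ∏ k, FF 1 (ν k) (blk k (A * X * Aᵀ)) :=
          Finset.prod_le_prod_of_subset_of_one_le' (Finset.subset_univ _) fun k _ _ => h1 k
  have hfin1 : ∀ k, ∫⁻ x, ENNReal.ofReal
      (((symMat x).submatrix (Sigma.mk k) (Sigma.mk k)).det ^ ν k) ∂(wishart α S) ≠ ⊤ := by
    intro k
    have := hfin {k}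
    simpa using this
  have hmx : ∀ k, Measurable fun x : Sym2 ((k : Fin d) × Fin (p k)) → ℝ =>
      ((symMat x).submatrix (Sigma.mk k) (Sigma.mk k)).det ^ ν k := fun k => (hbm k).comp hsm
  have hnn : ∀ k, 0 ≤ᵐ[wishart α S] fun x : Sym2 ((k : Fin d) × Fin (p k)) → ℝ =>
      ((symMat x).submatrix (Sigma.mk k) (Sigma.mk k)).det ^ ν k := by
    intro k
    filter_upwards [hcone] with x hx
    exact hpos _ hx k
  have hnnp : 0 ≤ᵐ[wishart α S] fun x : Sym2 ((k : Fin d) × Fin (p k)) → ℝ =>
      ∏ k, ((symMat x).submatrix (Sigma.mk k) (Sigma.mk k)).det ^ ν k := by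
    filter_upwards [hcone] with x hx
    exact Finset.prod_nonneg fun k _ => hpos _ hx k
  have hmxp : Measurable fun x : Sym2 ((k : Fin d) × Fin (p k)) → ℝ =>
      ∏ k, ((symMat x).submatrix (Sigma.mk k) (Sigma.mk k)).det ^ ν k :=
    Finset.measurable_fun_prod _ fun k _ => hmx k
  have hprodeq : ∫⁻ x, ENNReal.ofReal (∏ k, ((symMat x).submatrix (Sigma.mk k) (Sigma.mk k)).det ^ ν k)
      ∂(wishart α S) = ∫⁻ x, ∏ k, ENNReal.ofReal
      (((symMat x).submatrix (Sigma.mk k) (Sigma.mk k)).det ^ ν k) ∂(wishart α S) := by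
    refine lintegral_congr_ae ?_
    filter_upwards [hcone] with x hx
    exact ENNReal.ofReal_prod_of_nonneg fun k _ => hpos _ hx k
  have hI1 : ∀ k, Integrable (fun x => ((symMat x).submatrix (Sigma.mk k) (Sigma.mk k)).det ^ ν k)
      (wishart α S) := by
    intro k
    refine ⟨(hmx k).aestronglyMeasurable, ?_⟩
    rw [hasFiniteIntegral_iff_ofReal (hnn k)]
    exact (hfin1 k).lt_top
  have hI2 : Integrable (fun x => ∏ k, ((symMat x).submatrix (Sigma.mk k) (Sigma.mk k)).det ^ ν k)
      (wishart α S) := by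
    refine ⟨hmxp.aestronglyMeasurable, ?_⟩
    rw [hasFiniteIntegral_iff_ofReal hnnp, hprodeq]
    exact (hfin Finset.univ).lt_top
  refine ⟨hI1, hI2, ?_⟩
  have key := all_prod d p n hn hp α hα' A (by rw [hAA]; exact hS) ν hν
  have e1 : ∀ k, ∫ x, ((symMat x).submatrix (Sigma.mk k) (Sigma.mk k)).det ^ ν k ∂(wishart α S) =
      (∫⁻ x, ENNReal.ofReal (((symMat x).submatrix (Sigma.mk k) (Sigma.mk k)).det ^ ν k)
        ∂(wishart α S)).toReal := fun k =>
    integral_eq_lintegral_of_nonneg_ae (hnn k) (hmx k).aestronglyMeasurable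
  rw [integral_eq_lintegral_of_nonneg_ae hnnp hmxp.aestronglyMeasurable, hprodeq]
  simp only [e1]
  rw [← ENNReal.toReal_prod]
  refine ENNReal.toReal_mono (hfin Finset.univ) ?_
  have hm : Measurable fun Y : Matrix ((k : Fin d) × Fin (p k)) ((k : Fin d) × Fin (p k)) ℝ =>
      ∏ k, ENNReal.ofReal ((Y.submatrix (Sigma.mk k) (Sigma.mk k)).det ^ ν k) :=
    Finset.measurable_fun_prod _ fun k _ => (hbm k).ennreal_ofReal
  rw [hint _ hm]
  have e2 : ∀ k, ∫⁻ x, ENNReal.ofReal (((symMat x).submatrix (Sigma.mk k) (Sigma.mk k)).det ^ ν k)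
      ∂(wishart α S) = ∫⁻ X, ENNReal.ofReal
      (((A * X * Aᵀ).submatrix (Sigma.mk k) (Sigma.mk k)).det ^ ν k) ∂(BW n α) := fun k =>
    hint _ (hbm k).ennreal_ofReal
  simp only [e2]
  exact key

end Pool.Agent.H972.WG
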