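import Pool.Agent.H972.WG.Stmts

/-! Closure properties of functions of polynomial growth. -/

set_option autoImplicit false
open MeasureTheory ProbabilityTheory Matrix
open scoped ENNReal

namespace Pool.Agent.H972.WG

variable {j : ℕ}

theorem ss_nonneg {ω : (Fin j → ℝ) × ℝ} (h : 0 < ω.2) : 0 ≤ ss ω := by
  unfold ss
  have : 0 ≤ ω.1 ⬝ᵥ ω.1 := by
    simp only [dotProduct]
    exact Finset.sum_nonneg fun i _ => mul_self_nonneg _
  linarith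

theorem ss_pos {ω : (Fin j → ℝ) × ℝ} (h : 0 < ω.2) : 0 < ss ω := by
  unfold ss
  have : 0 ≤ ω.1 ⬝ᵥ ω.1 := by
    simp only [dotProduct]
    exact Finset.sum_nonneg fun i _ => mul_self_nonneg _
  linarith

theorem one_le_s {ω : (Fin j → ℝ) × ℝ} (h : 0 < ω.2) : 1 ≤ 1 + ss ω := by
  have := ss_nonneg h
  linarith

theorem Poly.nn {f : (Fin j → ℝ) × ℝ → ℝ} (hf : Poly f) :
    ∃ (C : ℝ) (N : ℕ), 0 ≤ C ∧ ∀ ω : (Fin j → ℝ) × ℝ, 0 < ω.2 → |f ω| ≤ C * (1 + ss ω) ^ N := by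
  obtain ⟨C, N, h⟩ := hf
  refine ⟨|C|, N, abs_nonneg C, fun ω hω => (h ω hω).trans ?_⟩
  have := one_le_s hω
  gcongr
  exact le_abs_self C

theorem Poly.const (a : ℝ) : Poly (fun _ : (Fin j → ℝ) × ℝ => a) :=
  ⟨|a|, 0, fun ω _ => by simp⟩

theorem Poly.mul {f g : (Fin j → ℝ) × ℝ → ℝ} (hf : Poly f) (hg : Poly g) :
    Poly (fun ω => f ω * g ω) := by
  obtain ⟨C, N, hC, h⟩ := hf.nn
  obtain ⟨C', N', hC', h'⟩ := hg.nn
  refine ⟨C * C', N + N', fun ω hω => ?_⟩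
  have h1 := one_le_s hω
  rw [abs_mul, pow_add]
  calc |f ω| * |g ω| ≤ (C * (1 + ss ω) ^ N) * (C' * (1 + ss ω) ^ N') :=
        mul_le_mul (h ω hω) (h' ω hω) (abs_nonneg _) (by positivity)
    _ = _ := by ring

theorem Poly.add {f g : (Fin j → ℝ) × ℝ → ℝ} (hf : Poly f) (hg : Poly g) :
    Poly (fun ω => f ω + g ω) := by
  obtain ⟨C, N, hC, h⟩ := hf.nn
  obtain ⟨C', N', hC', h'⟩ := hg.nn
  refine ⟨C + C', N + N', fun ω hω => ?_⟩
  have h1 := one_le_s hω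
  have e1 : (1 + ss ω) ^ N ≤ (1 + ss ω) ^ (N + N') := pow_le_pow_right₀ h1 (by omega)
  have e2 : (1 + ss ω) ^ N' ≤ (1 + ss ω) ^ (N + N') := pow_le_pow_right₀ h1 (by omega)
  calc |f ω + g ω| ≤ |f ω| + |g ω| := abs_add_le _ _
    _ ≤ C * (1 + ss ω) ^ N + C' * (1 + ss ω) ^ N' := add_le_add (h ω hω) (h' ω hω)
    _ ≤ C * (1 + ss ω) ^ (N + N') + C' * (1 + ss ω) ^ (N + N') := by gcongr
    _ = _ := by ring

theorem Poly.neg {f : (Fin j → ℝ) × ℝ → ℝ} (hf : Poly f) : Poly (fun ω => -f ω) := by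
  obtain ⟨C, N, h⟩ := hf
  exact ⟨C, N, fun ω hω => by rw [abs_neg]; exact h ω hω⟩

theorem Poly.sub {f g : (Fin j → ℝ) × ℝ → ℝ} (hf : Poly f) (hg : Poly g) :
    Poly (fun ω => f ω - g ω) := by
  simp only [sub_eq_add_neg]
  exact hf.add hg.neg

theorem Poly.sum {ι : Type*} (s : Finset ι) {f : ι → (Fin j → ℝ) × ℝ → ℝ}
    (hf : ∀ i ∈ s, Poly (f i)) : Poly (fun ω => ∑ i ∈ s, f i ω) := by
  classical
  induction s using Finset.induction_on with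
  | empty => simpa using Poly.const (j := j) 0
  | insert a s ha ih =>
    simp only [Finset.sum_insert ha]
    exact (hf a (Finset.mem_insert_self a s)).add
      (ih fun i hi => hf i (Finset.mem_insert_of_mem hi))

theorem Poly.prod {ι : Type*} (s : Finset ι) {f : ι → (Fin j → ℝ) × ℝ → ℝ}
    (hf : ∀ i ∈ s, Poly (f i)) : Poly (fun ω => ∏ i ∈ s, f i ω) := by
  classical
  induction s using Finset.induction_on with
  | empty => simpa using Poly.const (j := j) 1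
  | insert a s ha ih =>
    simp only [Finset.prod_insert ha]
    exact (hf a (Finset.mem_insert_self a s)).mul
      (ih fun i hi => hf i (Finset.mem_insert_of_mem hi))

theorem Poly.pow {f : (Fin j → ℝ) × ℝ → ℝ} (hf : Poly f) (m : ℕ) : Poly (fun ω => f ω ^ m) := by
  induction m with
  | zero => simpa using Poly.const (j := j) 1
  | succ m ih =>
    simp only [pow_succ]
    exact ih.mul hf

theorem Poly.sfun : Poly (ss (j := j)) :=
  ⟨1, 1, fun ω hω => by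
    have := ss_nonneg hω
    rw [abs_of_nonneg this]
    linarith⟩

theorem Poly.snd : Poly (fun ω : (Fin j → ℝ) × ℝ => ω.2) :=
  ⟨1, 1, fun ω hω => by
    rw [abs_of_pos hω]
    unfold Pool.Agent.H972.WG.ss
    have : 0 ≤ ω.1 ⬝ᵥ ω.1 := by
      simp only [dotProduct]
      exact Finset.sum_nonneg fun i _ => mul_self_nonneg _
    linarith⟩

theorem Poly.coord (i : Fin j) : Poly (fun ω : (Fin j → ℝ) × ℝ => ω.1 i) :=
  ⟨1, 1, fun ω hω => by
    have h1 : ω.1 i * ω.1 i ≤ ω.1 ⬝ᵥ ω.1 := by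
      simp only [dotProduct]
      exact Finset.single_le_sum (f := fun i => ω.1 i * ω.1 i)
        (fun i _ => mul_self_nonneg _) (Finset.mem_univ i)
    unfold Pool.Agent.H972.WG.ss
    rw [abs_le]
    constructor <;> nlinarith [sq_nonneg (ω.1 i - 1), sq_nonneg (ω.1 i + 1)]⟩

theorem Poly.div {f g : (Fin j → ℝ) × ℝ → ℝ} {ε : ℝ} (hf : Poly f) (hε : 0 < ε)
    (hg : ∀ ω : (Fin j → ℝ) × ℝ, 0 < ω.2 → ε ≤ g ω) : Poly (fun ω => f ω / g ω) := by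
  obtain ⟨C, N, hC, h⟩ := hf.nn
  refine ⟨C / ε, N, fun ω hω => ?_⟩
  have h1 := one_le_s hω
  have h2 := hg ω hω
  have h3 : 0 < g ω := hε.trans_le h2
  rw [abs_div, abs_of_pos h3]
  calc |f ω| / g ω ≤ |f ω| / ε := by gcongr
    _ ≤ (C * (1 + ss ω) ^ N) / ε := by gcongr; exact h ω hω
    _ = _ := by ring

theorem Poly.congr {f g : (Fin j → ℝ) × ℝ → ℝ} (hf : Poly f)
    (h : ∀ ω : (Fin j → ℝ) × ℝ, 0 < ω.2 → g ω = f ω) : Poly g := by
  obtain ⟨C, N, hC⟩ := hf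
  exact ⟨C, N, fun ω hω => by rw [h ω hω]; exact hC ω hω⟩

theorem Poly.rpow {f : (Fin j → ℝ) × ℝ → ℝ} (hf : Poly f) {ν : ℝ} (hν : 0 ≤ ν)
    (h0 : ∀ ω : (Fin j → ℝ) × ℝ, 0 < ω.2 → 0 ≤ f ω) : Poly (fun ω => f ω ^ ν) := by
  obtain ⟨C, N, hC, h⟩ := hf.nn
  refine ⟨C ^ ν, N * ⌈ν⌉₊, fun ω hω => ?_⟩
  have h1 := one_le_s hω
  have h2 := h ω hω
  rw [abs_of_nonneg (h0 ω hω)] at h2
  rw [abs_of_nonneg (Real.rpow_nonneg (h0 ω hω) ν)]
  calc f ω ^ ν ≤ (C * (1 + ss ω) ^ N) ^ ν := Real.rpow_le_rpow (h0 ω hω) h2 hν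
    _ = C ^ ν * ((1 + ss ω) ^ N) ^ ν := Real.mul_rpow hC (by positivity)
    _ ≤ C ^ ν * ((1 + ss ω) ^ N) ^ (⌈ν⌉₊ : ℝ) := by
        have : 1 ≤ (1 + ss ω) ^ N := one_le_pow₀ h1
        have h3 : ((1 + ss ω) ^ N) ^ ν ≤ ((1 + ss ω) ^ N) ^ (⌈ν⌉₊ : ℝ) :=
          Real.rpow_le_rpow_of_exponent_le this (Nat.le_ceil ν)
        have h4 : 0 ≤ C ^ ν := Real.rpow_nonneg hC ν
        gcongr
    _ = C ^ ν * (1 + ss ω) ^ (N * ⌈ν⌉₊) := by
        rw [Real.rpow_natCast, pow_mul]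

theorem Poly.quadP (κ g : ℝ) (l : Fin j → ℝ) (M : Matrix (Fin j) (Fin j) ℝ) :
    Poly (quad κ g l M) := by
  unfold Pool.Agent.H972.WG.quad
  refine (((Poly.const κ).add ((Poly.const 2).mul ?_)).add ?_).add ((Poly.const g).mul Poly.snd)
  · simp only [dotProduct]
    exact Poly.sum _ fun i _ => (Poly.const (l i)).mul (Poly.coord i)
  · simp only [dotProduct, Matrix.mulVec]
    exact Poly.sum _ fun i _ => (Poly.coord i).mul
      (Poly.sum _ fun k _ => (Poly.const (M i k)).mul (Poly.coord k))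

end Pool.Agent.H972.WG
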