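import Pool.Agent.H972.WG.Defs

/-!
# Product inequality for determinants of Wishart diagonal blocks (MP_9d9c13_pr)

Definitions and the statements of the steps of the proof.
-/

set_option autoImplicit false
open MeasureTheory ProbabilityTheory Matrix
open scoped ENNReal

namespace Pool.Agent.H972.WG

/-- Measurable structure on matrices: product structure. -/
instance instMSMatrix (m n : Type*) : MeasurableSpace (Matrix m n ℝ) :=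
  inferInstanceAs (MeasurableSpace (m → n → ℝ))

/-- Standard Gaussian measure on `ℝ^n`. -/
noncomputable def gauss (n : ℕ) : Measure (Fin n → ℝ) := Measure.pi fun _ : Fin n => gaussianReal 0 1

/-- Chi-square law with `a` degrees of freedom (`a` real). -/
noncomputable def chi (a : ℝ) : Measure ℝ := gammaMeasure (a / 2) (1 / 2)

/-- `r rᵀ + 0 ⊕ S`, `r = (√t, η)`. -/
noncomputable def build {n : ℕ} (t : ℝ) (η : Fin n → ℝ) (S : Matrix (Fin n) (Fin n) ℝ) :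
    Matrix (Fin (n + 1)) (Fin (n + 1)) ℝ :=
  Matrix.of (Fin.cons (Fin.cons t fun j => √t * η j)
    fun i => Fin.cons (√t * η i) fun j => S i j + η i * η j)

/-- The standard Wishart law with `a` degrees of freedom (Bartlett recursion). -/
noncomputable def BW : (n : ℕ) → ℝ → Measure (Matrix (Fin n) (Fin n) ℝ)
  | 0, _ => Measure.dirac 0
  | n + 1, a => ((chi a).prod ((gauss n).prod (BW n (a - 1)))).map
      fun q => build q.1 q.2.1 q.2.2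

/-- The measure `exp(-c(|ξ|²+y)) y^(δ/2-1) dξ dy` on `ℝ^j × (0,∞)`. -/
noncomputable def mu (j : ℕ) (δ c : ℝ) : Measure ((Fin j → ℝ) × ℝ) :=
  ((volume : Measure (Fin j → ℝ)).prod ((volume : Measure ℝ).restrict (Set.Ioi 0))).withDensity
    fun ω => ENNReal.ofReal (Real.exp (-(c * (ω.1 ⬝ᵥ ω.1 + ω.2))) * ω.2 ^ (δ / 2 - 1))

/-- `s = |ξ|² + y`. -/
def ss {j : ℕ} (ω : (Fin j → ℝ) × ℝ) : ℝ := ω.1 ⬝ᵥ ω.1 + ω.2

/-- A quadratic function `κ + 2 ℓ·ξ + ξᵀ M ξ + g y`. -/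
def quad {j : ℕ} (κ g : ℝ) (l : Fin j → ℝ) (M : Matrix (Fin j) (Fin j) ℝ)
    (ω : (Fin j → ℝ) × ℝ) : ℝ := κ + 2 * (l ⬝ᵥ ω.1) + ω.1 ⬝ᵥ (M *ᵥ ω.1) + g * ω.2

/-- The matrix `R + (B + c ξᵀ)(B + c ξᵀ)ᵀ + y c cᵀ`. -/
def NN {p j : ℕ} (R : Matrix (Fin p) (Fin p) ℝ) (B : Matrix (Fin p) (Fin j) ℝ) (c : Fin p → ℝ)
    (ω : (Fin j → ℝ) × ℝ) : Matrix (Fin p) (Fin p) ℝ :=
  R + (B + vecMulVec c ω.1) * (B + vecMulVec c ω.1)ᵀ + ω.2 • vecMulVec c c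

/-- `G(X) = ∏ det(R_k + C_k X C_kᵀ)^(ν_k)`. -/
noncomputable def Gf {K : Type} [Fintype K] {n : ℕ} (p : K → ℕ)
    (R : ∀ k, Matrix (Fin (p k)) (Fin (p k)) ℝ) (C : ∀ k, Matrix (Fin (p k)) (Fin n) ℝ)
    (ν : K → ℝ) (X : Matrix (Fin n) (Fin n) ℝ) : ℝ≥0∞ :=
  ∏ k, ENNReal.ofReal ((R k + C k * X * (C k)ᵀ).det ^ ν k)

/-- The structural properties of `det (NN R B c ω)` as a function of `ω = (ξ, y)`. -/
def S_QUAD : Prop := ∀ (p j : ℕ) (R : Matrix (Fin p) (Fin p) ℝ) (B : Matrix (Fin p) (Fin j) ℝ)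
  (c : Fin p → ℝ), R.PosDef → ∃ (κ g ε : ℝ) (l : Fin j → ℝ) (M : Matrix (Fin j) (Fin j) ℝ),
    0 ≤ g ∧ 0 < ε ∧ Mᵀ = M ∧
    (∀ ω, (NN R B c ω).det = quad κ g l M ω) ∧
    (∀ ξ : Fin j → ℝ, ε ≤ quad κ g l M (ξ, 0)) ∧
    (∀ ξ : Fin j → ℝ, (l + M *ᵥ ξ) ⬝ᵥ (l + M *ᵥ ξ) ≤ g * quad κ g l M (ξ, 0)) ∧
    g * ((j : ℝ) - p + 1) ≤ M.trace

/-- The integer step of the monotonicity. -/
def S_A : Prop := ∀ (j : ℕ) (δ : ℝ), 0 < δ → ∀ (K : Type) [Fintype K]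
  (κ g ε ν : K → ℝ) (l : K → Fin j → ℝ) (M : K → Matrix (Fin j) (Fin j) ℝ),
  (∀ k, 0 ≤ g k) → (∀ k, 0 < ε k) → (∀ k, 0 ≤ ν k) → (∀ k, (M k)ᵀ = M k) →
  (∀ k (ξ : Fin j → ℝ), ε k ≤ quad (κ k) (g k) (l k) (M k) (ξ, 0)) →
  (∀ k (ξ : Fin j → ℝ), (l k + M k *ᵥ ξ) ⬝ᵥ (l k + M k *ᵥ ξ) ≤
    g k * quad (κ k) (g k) (l k) (M k) (ξ, 0)) →
  (∀ k, 2 * g k ≤ (M k).trace + δ * g k) →
  ∀ c : ℝ, 0 < c → ∀ m : ℕ,
    Integrable (fun ω => ss ω ^ m * ∏ k, quad (κ k) (g k) (l k) (M k) ω ^ ν k) (mu j δ c) ∧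
    ((j : ℝ) + δ + 2 * m) * ∫ ω, ss ω ^ m * ∏ k, quad (κ k) (g k) (l k) (M k) ω ^ ν k ∂(mu j δ c) ≤
      2 * c * ∫ ω, ss ω ^ (m + 1) * ∏ k, quad (κ k) (g k) (l k) (M k) ω ^ ν k ∂(mu j δ c)

/-- Functions of polynomial growth in `s` (for `y > 0`). -/
def Poly {j : ℕ} (f : (Fin j → ℝ) × ℝ → ℝ) : Prop :=
  ∃ (C : ℝ) (N : ℕ), ∀ ω : (Fin j → ℝ) × ℝ, 0 < ω.2 → |f ω| ≤ C * (1 + ss ω) ^ N

/-- Functions of polynomial growth are integrable. -/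
def S_INT : Prop := ∀ (j : ℕ) (δ c : ℝ), 0 < δ → 0 < c → ∀ f : (Fin j → ℝ) × ℝ → ℝ,
  Measurable f → Poly f → Integrable f (mu j δ c)

/-- Integration by parts in the direction `ξ_i`. -/
def S_IBX : Prop := ∀ (j : ℕ) (δ c : ℝ), 0 < δ → 0 < c → ∀ (i : Fin j)
  (f f' : (Fin j → ℝ) × ℝ → ℝ), Measurable f → Measurable f' → Poly f → Poly f' →
  (∀ (ξ : Fin j → ℝ) (y : ℝ), 0 < y → HasDerivAt (fun t : ℝ => f (ξ + t • Pi.single i 1, y))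
    (f' (ξ, y)) 0) →
  ∫ ω, (f' ω - 2 * c * ω.1 i * f ω) ∂(mu j δ c) = 0

/-- Integration by parts in the direction `y`. -/
def S_IBY : Prop := ∀ (j : ℕ) (δ c : ℝ), 0 < δ → 0 < c → ∀
  (f f' : (Fin j → ℝ) × ℝ → ℝ), Measurable f → Measurable f' → Poly f → Poly f' →
  (∀ (ξ : Fin j → ℝ) (y : ℝ), 0 < y → HasDerivAt (fun t : ℝ => f (ξ, t)) (f' (ξ, y)) y) →
  ∫ ω, (ω.2 * f' ω + (δ / 2) * f ω - c * ω.2 * f ω) ∂(mu j δ c) = 0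

/-- From integer powers to real powers (abstract). -/
def S_FRAC : Prop := ∀ (Ω : Type) [MeasurableSpace Ω] (μ : Measure Ω) (s : Ω → ℝ) (U : Ω → ℝ≥0∞),
  SFinite μ → Measurable s → Measurable U → (∀ᵐ ω ∂μ, 0 < s ω) →
  (∀ (c : ℝ) (m : ℕ), 0 < c →
    ∫⁻ ω, ENNReal.ofReal (s ω ^ m * Real.exp (-(c * s ω))) * U ω ∂μ ≠ ⊤) →
  (∀ (c : ℝ) (m : ℕ), 0 < c →
    ∫⁻ ω, ENNReal.ofReal (s ω ^ m * Real.exp (-(c * s ω))) ∂μ ≠ ⊤) →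
  (∀ (c : ℝ) (m : ℕ), 0 < c →
    ∫⁻ ω, ENNReal.ofReal (s ω ^ m * Real.exp (-(c * s ω))) ∂μ ≠ 0) →
  (∀ (c : ℝ) (m : ℕ), 0 < c →
    (∫⁻ ω, ENNReal.ofReal (s ω ^ m * Real.exp (-(c * s ω))) * U ω ∂μ) *
      (∫⁻ ω, ENNReal.ofReal (s ω ^ (m + 1) * Real.exp (-(c * s ω))) ∂μ) ≤
    (∫⁻ ω, ENNReal.ofReal (s ω ^ (m + 1) * Real.exp (-(c * s ω))) * U ω ∂μ) *
      (∫⁻ ω, ENNReal.ofReal (s ω ^ m * Real.exp (-(c * s ω))) ∂μ)) →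
  ∀ (c ν : ℝ), 0 < c → 0 ≤ ν →
    (∫⁻ ω, ENNReal.ofReal (s ω ^ ν * Real.exp (-(c * s ω))) ∂μ) *
      (∫⁻ ω, ENNReal.ofReal (Real.exp (-(c * s ω))) * U ω ∂μ) ≤
    (∫⁻ ω, ENNReal.ofReal (s ω ^ ν * Real.exp (-(c * s ω))) * U ω ∂μ) *
      (∫⁻ ω, ENNReal.ofReal (Real.exp (-(c * s ω))) ∂μ)

/-- `mu j δ (1/2)` is a multiple of `gauss j × chi δ`. -/
def S_MUG : Prop := ∀ (j : ℕ) (δ : ℝ), 0 < δ → ∃ C : ℝ≥0∞, C ≠ 0 ∧ C ≠ ⊤ ∧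
  mu j δ (1 / 2) = C • ((gauss j).prod (chi δ))

/-- The core inequality. -/
def S_CORE : Prop := ∀ (j : ℕ) (δ : ℝ), 0 < δ → ∀ (K : Type) [Fintype K] (p : K → ℕ)
  (R : ∀ k, Matrix (Fin (p k)) (Fin (p k)) ℝ) (B : ∀ k, Matrix (Fin (p k)) (Fin j) ℝ)
  (c : ∀ k, Fin (p k) → ℝ) (ν : K → ℝ) (ν0 : ℝ), (∀ k, (R k).PosDef) → (∀ k, 0 ≤ ν k) → 0 ≤ ν0 →
  (∀ k, (p k : ℝ) + 1 ≤ j + δ) →
  (∫⁻ ω, ENNReal.ofReal (ss ω ^ ν0) ∂((gauss j).prod (chi δ))) *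
    (∫⁻ ω, ∏ k, ENNReal.ofReal ((NN (R k) (B k) (c k) ω).det ^ ν k) ∂((gauss j).prod (chi δ))) ≤
  ∫⁻ ω, ENNReal.ofReal (ss ω ^ ν0) *
    ∏ k, ENNReal.ofReal ((NN (R k) (B k) (c k) ω).det ^ ν k) ∂((gauss j).prod (chi δ))

/-- Generalised core inequality: some variables not yet peeled. The tilted variable is the last
one. -/
def S_GEN : Prop := ∀ (m j : ℕ) (a : ℝ), (m : ℝ) < a → ∀ (K : Type) [Fintype K] (p : K → ℕ)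
  (R : ∀ k, Matrix (Fin (p k)) (Fin (p k)) ℝ) (B : ∀ k, Matrix (Fin (p k)) (Fin j) ℝ)
  (C : ∀ k, Matrix (Fin (p k)) (Fin (m + 1)) ℝ) (ν : K → ℝ) (ν0 : ℝ),
  (∀ k, (R k).PosDef) → (∀ k, 0 ≤ ν k) → 0 ≤ ν0 → (∀ k, (p k : ℝ) + 1 ≤ j + a) →
  (∫⁻ q, ENNReal.ofReal ((q.1 ⬝ᵥ q.1 + q.2 (Fin.last m) (Fin.last m)) ^ ν0)
      ∂((gauss j).prod (BW (m + 1) a))) *
    (∫⁻ q, ∏ k, ENNReal.ofReal ((R k + (B k + vecMulVec (fun i => C k i (Fin.last m)) q.1) *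
      (B k + vecMulVec (fun i => C k i (Fin.last m)) q.1)ᵀ + C k * q.2 * (C k)ᵀ).det ^ ν k)
      ∂((gauss j).prod (BW (m + 1) a))) ≤
  ∫⁻ q, ENNReal.ofReal ((q.1 ⬝ᵥ q.1 + q.2 (Fin.last m) (Fin.last m)) ^ ν0) *
    ∏ k, ENNReal.ofReal ((R k + (B k + vecMulVec (fun i => C k i (Fin.last m)) q.1) *
      (B k + vecMulVec (fun i => C k i (Fin.last m)) q.1)ᵀ + C k * q.2 * (C k)ᵀ).det ^ ν k)
      ∂((gauss j).prod (BW (m + 1) a))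

/-- Permutation invariance of the standard Wishart law. -/
def S_PERM : Prop := ∀ (n : ℕ) (a : ℝ), (n : ℝ) - 1 < a → ∀ σ : Equiv.Perm (Fin n),
  (BW n a).map (fun X => X.submatrix σ σ) = BW n a

/-- Probability and almost sure positive definiteness. -/
def S_PD : Prop := ∀ (n : ℕ) (a : ℝ), (n : ℝ) - 1 < a →
  IsProbabilityMeasure (BW n a) ∧ ∀ᵐ X ∂(BW n a), X.PosDef

/-- Anderson-type monotonicity for one block. -/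
def S_AND : Prop := ∀ (p n : ℕ) (A : Matrix (Fin p) (Fin p) ℝ) (C : Matrix (Fin p) (Fin n) ℝ)
  (c : Fin p → ℝ) (ν : ℝ), A.PosDef → 0 ≤ ν → ∀ t t' : ℝ, 0 ≤ t → t ≤ t' →
  ∫⁻ η, ENNReal.ofReal ((A + vecMulVec (t • c + C *ᵥ η) (t • c + C *ᵥ η)).det ^ ν) ∂(gauss n) ≤
  ∫⁻ η, ENNReal.ofReal ((A + vecMulVec (t' • c + C *ᵥ η) (t' • c + C *ᵥ η)).det ^ ν) ∂(gauss n)

/-- Scalar case: the tilted block is the first variable. -/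
def S_SC : Prop := ∀ (n : ℕ) (a : ℝ), (n : ℝ) < a → ∀ (K : Type) [Fintype K] (p : K → ℕ)
  (R : ∀ k, Matrix (Fin (p k)) (Fin (p k)) ℝ) (C : ∀ k, Matrix (Fin (p k)) (Fin (n + 1)) ℝ)
  (ν : K → ℝ) (ν0 : ℝ), (∀ k, (R k).PosDef) → (∀ k, 0 ≤ ν k) → 0 ≤ ν0 →
  ((∀ k, (p k : ℝ) + 1 ≤ a) ∨ Subsingleton K) →
  (∫⁻ X, ENNReal.ofReal (X 0 0 ^ ν0) ∂(BW (n + 1) a)) * (∫⁻ X, Gf p R C ν X ∂(BW (n + 1) a)) ≤
  ∫⁻ X, ENNReal.ofReal (X 0 0 ^ ν0) * Gf p R C ν X ∂(BW (n + 1) a)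

/-- The inequality for a leading principal minor of size `q` and the other blocks. -/
def S_SR : Prop := ∀ (q n : ℕ) (hq : q ≤ n) (a : ℝ), (n : ℝ) - 1 < a → ∀ (K : Type) [Fintype K]
  (p : K → ℕ) (R : ∀ k, Matrix (Fin (p k)) (Fin (p k)) ℝ)
  (C : ∀ k, Matrix (Fin (p k)) (Fin n) ℝ)
  (ν : K → ℝ) (ν0 : ℝ), (∀ k, (R k).PosDef) → (∀ k, 0 ≤ ν k) → 0 ≤ ν0 →
  ((∀ k, (q : ℝ) + p k ≤ a) ∨ Subsingleton K) →
  (∫⁻ X, ENNReal.ofReal ((X.submatrix (Fin.castLE hq) (Fin.castLE hq)).det ^ ν0) ∂(BW n a)) *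
    (∫⁻ X, Gf p R C ν X ∂(BW n a)) ≤
  ∫⁻ X, ENNReal.ofReal ((X.submatrix (Fin.castLE hq) (Fin.castLE hq)).det ^ ν0) *
    Gf p R C ν X ∂(BW n a)

/-- Unnormalised standard Wishart density measure. -/
noncomputable def Wun (n : ℕ) (a : ℝ) : Measure (Sym2 (Fin n) → ℝ) :=
  ((volume : Measure (Sym2 (Fin n) → ℝ)).restrict (cone (Fin n))).withDensity
    fun x => ENNReal.ofReal ((symMat x).det ^ ((a - n - 1) / 2) *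
      Real.exp (-((symMat x).trace / 2)))

/-- Coordinates on symmetric `(n+1) × (n+1)` matrices. -/
def glue {n : ℕ} (t : ℝ) (v : Fin n → ℝ) (z : Sym2 (Fin n) → ℝ) : Sym2 (Fin (n + 1)) → ℝ :=
  Sym2.lift ⟨fun i j => (Fin.cases (Fin.cases t v j : ℝ)
      (fun i' => (Fin.cases (v i') (fun j' => z s(i', j')) j : ℝ)) i : ℝ), by
    intro i j
    refine Fin.cases ?_ (fun i' => ?_) i <;> refine Fin.cases ?_ (fun j' => ?_) j <;>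
      simp [Sym2.eq_swap]⟩

/-- `glue` preserves Lebesgue measure. -/
def S_GLUE : Prop := ∀ n : ℕ, MeasurePreserving
  (fun q : ℝ × ((Fin n → ℝ) × (Sym2 (Fin n) → ℝ)) => glue q.1 q.2.1 q.2.2)
  ((volume : Measure ℝ).prod ((volume : Measure (Fin n → ℝ)).prod
    (volume : Measure (Sym2 (Fin n) → ℝ)))) (volume : Measure (Sym2 (Fin (n + 1)) → ℝ))

/-- Schur complement facts for `build`. -/
def S_SCHUR : Prop := ∀ (n : ℕ) (t : ℝ) (η : Fin n → ℝ) (S : Matrix (Fin n) (Fin n) ℝ), 0 < t →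
  ((build t η S).PosDef ↔ S.PosDef) ∧ (build t η S).det = t * S.det ∧
    (build t η S).trace = t + η ⬝ᵥ η + S.trace ∧
    ∀ q : ℕ, ∀ hq : q ≤ n, ((build t η S).submatrix (Fin.castLE (Nat.succ_le_succ hq))
      (Fin.castLE (Nat.succ_le_succ hq))).det = t * (S.submatrix (Fin.castLE hq) (Fin.castLE hq)).det

/-- Recursion for the density measure. -/
def S_WREC : Prop := ∀ (n : ℕ) (a : ℝ),
  (Wun (n + 1) a).map symMat =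
    ((((volume : Measure ℝ).restrict (Set.Ioi 0)).withDensity
        fun t => ENNReal.ofReal (t ^ (a / 2 - 1) * Real.exp (-(t / 2)))).prod
      (((volume : Measure (Fin n → ℝ)).withDensity
        fun η => ENNReal.ofReal (Real.exp (-((η ⬝ᵥ η) / 2)))).prod
        ((Wun n (a - 1)).map symMat))).map fun q => build q.1 q.2.1 q.2.2

/-- The density measure is a multiple of `BW`. -/
def S_WBW : Prop := ∀ (n : ℕ) (a : ℝ), (n : ℝ) - 1 < a → ∃ C : ℝ≥0∞, C ≠ 0 ∧ C ≠ ⊤ ∧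
  (Wun n a).map symMat = C • BW n a

/-- The normalised density measure is `BW`. -/
def S_DENS : Prop := ∀ (n : ℕ) (a : ℝ), (n : ℝ) - 1 < a →
  (wishart a (1 : Matrix (Fin n) (Fin n) ℝ)).map symMat = BW n a

/-- Coordinates of (the symmetrisation of) a matrix. -/
noncomputable def coords {ι : Type*} (X : Matrix ι ι ℝ) : Sym2 ι → ℝ :=
  Sym2.lift ⟨fun i j => (X i j + X j i) / 2, fun i j => by ring⟩

/-- The Jacobian of the congruence `X ↦ A X Aᵀ` on symmetric matrices. -/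
def S_CONG : Prop := ∀ (n : ℕ) (A : Matrix (Fin n) (Fin n) ℝ), A.det ≠ 0 →
  ∃ L : (Sym2 (Fin n) → ℝ) →ₗ[ℝ] (Sym2 (Fin n) → ℝ),
    (∀ x, L x = coords (A * symMat x * Aᵀ)) ∧ |LinearMap.det L| = |A.det| ^ (n + 1)

/-- The Wishart law as the image of `BW`. -/
def S_LAW : Prop := ∀ (ι : Type) [Fintype ι] [DecidableEq ι] (n : ℕ), Fintype.card ι = n →
  ∀ a : ℝ, (n : ℝ) - 1 < a → ∀ S : Matrix ι ι ℝ, S.PosDef → ∀ A : Matrix ι (Fin n) ℝ,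
  A * Aᵀ = S → (wishart a S).map symMat = (BW n a).map fun X => A * X * Aᵀ

/-- Lower triangular factorisation. -/
def S_CHOL : Prop := ∀ (n : ℕ) (S : Matrix (Fin n) (Fin n) ℝ), S.PosDef →
  ∃ L : Matrix (Fin n) (Fin n) ℝ, (∀ i j, i < j → L i j = 0) ∧ L * Lᵀ = S

/-- Finite moments. -/
def S_MOM : Prop := ∀ (n : ℕ) (a : ℝ), (n : ℝ) - 1 < a → ∀ N : ℕ,
  ∫⁻ X, ENNReal.ofReal ((1 + X.trace) ^ N) ∂(BW n a) ≠ ⊤

/-- The product inequality for the standard law: general blocks `C_k X C_kᵀ`. -/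
def S_PROD : Prop := ∀ (d : ℕ) (p : Fin d → ℕ) (n : ℕ), (∑ k, p k = n) → (∀ k, 1 ≤ p k) →
  ∀ a : ℝ, (n : ℝ) - 1 < a →
  ∀ A : Matrix ((k : Fin d) × Fin (p k)) (Fin n) ℝ, (A * Aᵀ).PosDef →
  ∀ ν : Fin d → ℝ, (∀ k, 0 ≤ ν k) →
  ∏ k, ∫⁻ X, ENNReal.ofReal (((A * X * Aᵀ).submatrix (Sigma.mk k) (Sigma.mk k)).det ^ ν k) ∂(BW n a)
    ≤ ∫⁻ X, ∏ k, ENNReal.ofReal (((A * X * Aᵀ).submatrix (Sigma.mk k) (Sigma.mk k)).det ^ ν k)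
      ∂(BW n a)

/-- The final statement. -/
def S_FINAL : Prop := ∀ (d : ℕ) (p : Fin d → ℕ), 1 ≤ d → (∀ k, 1 ≤ p k) → ∀ α : ℝ,
  (∑ k, (p k : ℝ)) - 1 < α →
  ∀ S : Matrix ((k : Fin d) × Fin (p k)) ((k : Fin d) × Fin (p k)) ℝ, S.PosDef →
  IsProbabilityMeasure (wishart α S) ∧
  ∀ ν : Fin d → ℝ, (∀ k, 0 ≤ ν k) →
  (∀ k, Integrable (fun x => ((symMat x).submatrix (Sigma.mk k) (Sigma.mk k)).det ^ ν k)
    (wishart α S)) ∧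
  Integrable (fun x => ∏ k, ((symMat x).submatrix (Sigma.mk k) (Sigma.mk k)).det ^ ν k)
    (wishart α S) ∧
  ∏ k, ∫ x, ((symMat x).submatrix (Sigma.mk k) (Sigma.mk k)).det ^ ν k ∂(wishart α S) ≤
    ∫ x, ∏ k, ((symMat x).submatrix (Sigma.mk k) (Sigma.mk k)).det ^ ν k ∂(wishart α S)

end Pool.Agent.H972.WG
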